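import Pool.Agent.J6H68.K65.Leaf3

/-! The inequality for functions of the structure on five vertices of a 3-graph. -/

set_option autoImplicit false
set_option maxRecDepth 100000
set_option maxHeartbeats 4000000
open Finset

namespace Pool.Agent.J6H68.K65

open Pool.Agent.H122R2.N6 hiding TB tg walk walk_all chk chk_sound rep_good walk_good leaf_all good_sw0 good_sw1 good_sw2 good_sw3 Good

theorem cd10_lt {x0 x1 x2 x3 x4 x5 x6 x7 x8 x9 : ℕ} (h0 : Bt x0) (h1 : Bt x1) (h2 : Bt x2) (h3 : Bt x3)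
    (h4 : Bt x4) (h5 : Bt x5) (h6 : Bt x6) (h7 : Bt x7) (h8 : Bt x8) (h9 : Bt x9) :
    cd10 x0 x1 x2 x3 x4 x5 x6 x7 x8 x9 < 1024 := by
  have := Bt_lt h0; have := Bt_lt h1; have := Bt_lt h2; have := Bt_lt h3; have := Bt_lt h4
  have := Bt_lt h5; have := Bt_lt h6; have := Bt_lt h7; have := Bt_lt h8; have := Bt_lt h9
  show x0 + (2 * x1 + (4 * x2 + (8 * x3 + (16 * x4 + (32 * x5 + (64 * x6 + (128 * x7 + (256 * x8 + 512 * x9)))))))) < 1024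
  omega

section
variable {V : Type} [Fintype V] (E : V → V → V → ℕ)

theorem sumL5 (u : ℕ → ℕ) :
    ∑ x : Fin 6 → V, (L5 E u (x 0) (x 1) (x 2) (x 3) (x 4) (x 5) : ℤ)
      = 6 * ∑ x : Fin 6 → V, (F5 E u (x 0) (x 1) (x 2) (x 3) (x 4) : ℤ) := by
  have f5 : ∀ i0 i1 i2 i3 i4 i5 : Fin 6, Function.Injective ![i0, i1, i2, i3, i4, i5] →
      ∑ x : Fin 6 → V, (F5 E u (x i0) (x i1) (x i2) (x i3) (x i4) : ℤ)
      = ∑ x : Fin 6 → V, (F5 E u (x 0) (x 1) (x 2) (x 3) (x 4) : ℤ) :=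
    fun i0 i1 i2 i3 i4 i5 hg =>
      psum (fun a b c d e _ => (F5 E u a b c d e : ℤ)) ![i0, i1, i2, i3, i4, i5]
        (Finite.injective_iff_bijective.mp hg)
  simp only [L5, Nat.cast_add, sum_add_distrib]
  rw [f5 0 1 2 3 5 4 (by decide), f5 0 1 2 4 5 3 (by decide), f5 0 1 3 4 5 2 (by decide),
    f5 0 2 3 4 5 1 (by decide), f5 1 2 3 4 5 0 (by decide)]
  ring

/-- the sum of a function of the structure on five vertices -/
def SU (u : ℕ → ℕ) : ℤ := ∑ a, ∑ b, ∑ c, ∑ d, ∑ e, (F5 E u a b c d e : ℤ)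

theorem sumF5 (u : ℕ → ℕ) :
    ∑ x : Fin 6 → V, (F5 E u (x 0) (x 1) (x 2) (x 3) (x 4) : ℤ) = (Fintype.card V : ℤ) * SU E u := by
  rw [conv6 (fun a b c d e _ => (F5 E u a b c d e : ℤ))]
  unfold SU
  simp only [sum_const, card_univ, nsmul_eq_mul, mul_sum]

theorem bound3 (hE : Sy E) (K K2 C KU : ℕ) (q4 : ℕ → ℕ → ℕ → ℕ) (W : ℕ → ℕ → ℕ) (l : ℕ → ℕ → ℕ → ℕ)
    (q2 : ℕ → ℕ → ℕ) (W2 : ℕ → ℕ) (l2 : ℕ → ℕ → ℕ) (u : ℕ → ℕ) (B O4 O2 : ℤ)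
    (hq4 : ∀ c i j, c < 16 → i < 64 → j < 64 → (q4 c i j : ℤ) =
      ∑ k ∈ range K, (W c k : ℤ) * ((l c i k : ℤ) - B) * ((l c j k : ℤ) - B) + O4)
    (hq2 : ∀ i j, i < 16 → j < 16 → (q2 i j : ℤ) =
      ∑ k ∈ range K2, (W2 k : ℤ) * ((l2 i k : ℤ) - B) * ((l2 j k : ℤ) - B) + O2)
    (hu : ∀ c, c < 1024 → u c ≤ KU)
    (hleaf : ∀ a b c d e f : V, L4 E q4 a b c d e f + L2 E q2 a b c d e f
      + L5 E (fun c => Nat.sub KU (u c)) a b c d e f ≤ C) :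
    (15 * O4 + 45 * O2 + 6 * KU - C) * (Fintype.card V : ℤ) ^ 6 ≤ 6 * ((Fintype.card V : ℤ) * SU E u) := by
  have A4 := lower4 E hE K q4 W l B O4 (fun _ => 0) (by intro c i j hc hi hj; rw [hq4 c i j hc hi hj]; ring)
  have A2 := lower2 E hE K2 q2 W2 l2 B O2 hq2
  have hSv : Sv E (fun _ => 0) = 0 := by unfold Sv; simp
  rw [hSv, mul_zero, add_zero] at A4
  have key : ∑ x : Fin 6 → V, ((L4 E q4 (x 0) (x 1) (x 2) (x 3) (x 4) (x 5) : ℤ)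
      + (L2 E q2 (x 0) (x 1) (x 2) (x 3) (x 4) (x 5) : ℤ)
      + (L5 E (fun c => Nat.sub KU (u c)) (x 0) (x 1) (x 2) (x 3) (x 4) (x 5) : ℤ)) ≤ C * (Fintype.card V : ℤ) ^ 6 := by
    calc _ ≤ ∑ x : Fin 6 → V, (C : ℤ) :=
          sum_le_sum fun x _ => by exact_mod_cast hleaf (x 0) (x 1) (x 2) (x 3) (x 4) (x 5)
      _ = C * (Fintype.card V : ℤ) ^ 6 := by
          rw [sum_const, card_univ, Fintype.card_fun, Fintype.card_fin, nsmul_eq_mul]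
          push_cast
          ring
  rw [sum_add_distrib, sum_add_distrib, sumL4 E q4, sumL2 E q2, sumL5 E] at key
  have h5 : ∑ x : Fin 6 → V, (F5 E (fun c => Nat.sub KU (u c)) (x 0) (x 1) (x 2) (x 3) (x 4) : ℤ)
      = KU * (Fintype.card V : ℤ) ^ 6 - (Fintype.card V : ℤ) * SU E u := by
    rw [← sumF5]
    have h6 : (KU : ℤ) * (Fintype.card V : ℤ) ^ 6 = ∑ x : Fin 6 → V, (KU : ℤ) := by
      rw [sum_const, card_univ, Fintype.card_fun, Fintype.card_fin, nsmul_eq_mul]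
      push_cast
      ring
    rw [h6, ← sum_sub_distrib]
    refine sum_congr rfl fun x _ => ?_
    have h7 : u (cd10 (E (x 0) (x 1) (x 2)) (E (x 0) (x 1) (x 3)) (E (x 0) (x 2) (x 3)) (E (x 1) (x 2) (x 3))
        (E (x 0) (x 1) (x 4)) (E (x 0) (x 2) (x 4)) (E (x 1) (x 2) (x 4)) (E (x 0) (x 3) (x 4))
        (E (x 1) (x 3) (x 4)) (E (x 2) (x 3) (x 4))) ≤ KU :=
      hu _ (cd10_lt (hE.b _ _ _) (hE.b _ _ _) (hE.b _ _ _) (hE.b _ _ _) (hE.b _ _ _) (hE.b _ _ _)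
        (hE.b _ _ _) (hE.b _ _ _) (hE.b _ _ _) (hE.b _ _ _))
    unfold F5
    show ((KU - u _ : ℕ) : ℤ) = _
    rw [Nat.cast_sub h7]
  rw [h5] at key
  linarith

end
end Pool.Agent.J6H68.K65
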