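import Pool.Agent.J6H68.K65.Walk7
import Pool.Agent.J6H68.K65.Tab

set_option autoImplicit false
set_option maxRecDepth 100000
set_option maxHeartbeats 4000000

namespace Pool.Agent.J6H68.K65

open Pool.Agent.H122R2.N6 (B2)

theorem seven0 : (B2 fun g01 => B2 fun g02 => B2 fun g12 => B2 fun g03 => B2 fun g13 => B2 fun g23 => B2 fun g04 => B2 fun g14 => B2 fun g24 => B2 fun g34 => B2 fun g05 => B2 fun g15 => B2 fun g25 => B2 fun g35 => B2 fun g45 => or (not (Nat.beq (tg7 g01 g02 g12 g03 g13 g23 g04 g14 g24 g34 g05 g15 g25 g35 g45) 5)) (chk7 q5 uu DD C7 g01 g02 g12 g03 g13 g23 g04 g14 g24 g34 g05 g15 g25 g35 g45)) = true := by decide +kernel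

theorem csq : symQ q5 = true := by decide +kernel

end Pool.Agent.J6H68.K65
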