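import Pool.Agent.J6H68.K65.Three
import Pool.Agent.J6H68.K65.D0

/-! The inequality for 5-graphs without a clique on six vertices. -/

set_option autoImplicit false
set_option maxRecDepth 100000
set_option maxHeartbeats 4000000
open Finset

namespace Pool.Agent.J6H68.K65

open Pool.Agent.H122R2.N6 (Bt B2 B2_true Sy or_false_left Bt_lt psd)

theorem cd5_lt {x0 x1 x2 x3 x4 : ℕ} (h0 : Bt x0) (h1 : Bt x1) (h2 : Bt x2) (h3 : Bt x3)
    (h4 : Bt x4) : cd5 x0 x1 x2 x3 x4 < 32 := by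
  have := Bt_lt h0; have := Bt_lt h1; have := Bt_lt h2; have := Bt_lt h3; have := Bt_lt h4
  show x0 + (2 * x1 + (4 * x2 + (8 * x3 + 16 * x4))) < 32
  omega

section
variable {V : Type} [Fintype V]

theorem psum7 (F : V → V → V → V → V → V → V → ℤ) (g : Fin 7 → Fin 7) (hg : Function.Bijective g) :
    ∑ x : Fin 7 → V, F (x (g 0)) (x (g 1)) (x (g 2)) (x (g 3)) (x (g 4)) (x (g 5)) (x (g 6))
      = ∑ x : Fin 7 → V, F (x 0) (x 1) (x 2) (x 3) (x 4) (x 5) (x 6) := by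
  have h := Equiv.sum_comp (Equiv.arrowCongr (Equiv.ofBijective g hg).symm (Equiv.refl V))
    (fun x => F (x 0) (x 1) (x 2) (x 3) (x 4) (x 5) (x 6))
  rw [← h]
  rfl

def e7 (V : Type) : (Fin 7 → V) ≃ V × V × V × V × V × V × V where
  toFun x := (x 0, x 1, x 2, x 3, x 4, x 5, x 6)
  invFun p := ![p.1, p.2.1, p.2.2.1, p.2.2.2.1, p.2.2.2.2.1, p.2.2.2.2.2.1, p.2.2.2.2.2.2]
  left_inv x := by funext i; fin_cases i <;> rfl
  right_inv p := rfl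

theorem conv7 (F : V → V → V → V → V → V → V → ℤ) :
    ∑ x : Fin 7 → V, F (x 0) (x 1) (x 2) (x 3) (x 4) (x 5) (x 6)
      = ∑ a, ∑ b, ∑ c, ∑ d, ∑ e, ∑ f, ∑ g, F a b c d e f g := by
  rw [← Equiv.sum_comp (e7 V).symm]
  simp only [Fintype.sum_prod_type]
  rfl

variable (H : V → V → V → V → V → ℕ)

theorem lowerQ (hH : Sy5 H) (K : ℕ) (q : ℕ → ℕ → ℕ → ℕ) (l : ℕ → ℕ → ℕ → ℕ) (B O5 : ℤ)
    (hq : ∀ s i j, s < 2 → i < 32 → j < 32 → (q s i j : ℤ) =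
      ∑ k ∈ range K, ((1 : ℕ) : ℤ) * ((l s i k : ℤ) - B) * ((l s j k : ℤ) - B) + O5) :
    O5 * (Fintype.card V : ℤ) ^ 7 ≤ ∑ x : Fin 7 → V, (Q7 H q (x 0) (x 1) (x 2) (x 3) (x 4) (x 5) (x 6) : ℤ) := by
  rw [conv7 (fun a b c d e f g => (Q7 H q a b c d e f g : ℤ))]
  have e1 : O5 * (Fintype.card V : ℤ) ^ 7
      = ∑ a : V, ∑ b : V, ∑ c : V, ∑ d : V, ∑ e : V, ∑ f : V, ∑ g : V, O5 := by
    simp only [sum_const, card_univ, nsmul_eq_mul]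
    ring
  rw [e1]
  refine sum_le_sum fun a _ => sum_le_sum fun b _ => sum_le_sum fun c _ => sum_le_sum fun d _ =>
    sum_le_sum fun e _ => ?_
  have e2 : ∀ f g : V, (Q7 H q a b c d e f g : ℤ) = _ := fun f g =>
    hq _ _ _ (Bt_lt (hH.b a b c d e))
      (cd5_lt (hH.b f b c d e) (hH.b a f c d e) (hH.b a b f d e) (hH.b a b c f e) (hH.b a b c d f))
      (cd5_lt (hH.b g b c d e) (hH.b a g c d e) (hH.b a b g d e) (hH.b a b c g e) (hH.b a b c d g))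
  simp only [e2, sum_add_distrib]
  have p := psd K (fun _ => 1)
    (fun k f => (l (H a b c d e)
      (cd5 (H f b c d e) (H a f c d e) (H a b f d e) (H a b c f e) (H a b c d f)) k : ℤ) - B)
  linarith

theorem sumL7 (q : ℕ → ℕ → ℕ → ℕ) (u : ℕ → ℕ) :
    ∑ x : Fin 7 → V, (L7 H q u (x 0) (x 1) (x 2) (x 3) (x 4) (x 5) (x 6) : ℤ)
      = 21 * ∑ x : Fin 7 → V, (F7 H q u (x 0) (x 1) (x 2) (x 3) (x 4) (x 5) (x 6) : ℤ) := by
  have f7 : ∀ i0 i1 i2 i3 i4 i5 i6 : Fin 7, Function.Injective ![i0, i1, i2, i3, i4, i5, i6] →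
      ∑ x : Fin 7 → V, (F7 H q u (x i0) (x i1) (x i2) (x i3) (x i4) (x i5) (x i6) : ℤ)
      = ∑ x : Fin 7 → V, (F7 H q u (x 0) (x 1) (x 2) (x 3) (x 4) (x 5) (x 6) : ℤ) :=
    fun i0 i1 i2 i3 i4 i5 i6 hg =>
      psum7 (fun a b c d e f g => (F7 H q u a b c d e f g : ℤ)) ![i0, i1, i2, i3, i4, i5, i6]
        (Finite.injective_iff_bijective.mp hg)
  simp only [L7, Nat.cast_add, sum_add_distrib]
  rw [f7 2 3 4 5 6 0 1 (by decide), f7 1 3 4 5 6 0 2 (by decide), f7 0 3 4 5 6 1 2 (by decide), f7 1 2 4 5 6 0 3 (by decide), f7 0 2 4 5 6 1 3 (by decide), f7 0 1 4 5 6 2 3 (by decide), f7 1 2 3 5 6 0 4 (by decide), f7 0 2 3 5 6 1 4 (by decide), f7 0 1 3 5 6 2 4 (by decide), f7 0 1 2 5 6 3 4 (by decide), f7 1 2 3 4 6 0 5 (by decide), f7 0 2 3 4 6 1 5 (by decide), f7 0 1 3 4 6 2 5 (by decide), f7 0 1 2 4 6 3 5 (by decide), f7 0 1 2 3 6 4 5 (by decide), f7 1 2 3 4 5 0 6 (by decide),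 f7 0 2 3 4 5 1 6 (by decide), f7 0 1 3 4 5 2 6 (by decide), f7 0 1 2 4 5 3 6 (by decide), f7 0 1 2 3 5 4 6 (by decide), f7 0 1 2 3 4 5 6 (by decide)]
  ring

theorem sumS7 :
    ∑ x : Fin 7 → V, (S7 H (x 0) (x 1) (x 2) (x 3) (x 4) (x 5) (x 6) : ℤ)
      = 21 * ((Fintype.card V : ℤ) ^ 2 * ∑ a, ∑ b, ∑ c, ∑ d, ∑ e, (H a b c d e : ℤ)) := by
  have f7 : ∀ i0 i1 i2 i3 i4 i5 i6 : Fin 7, Function.Injective ![i5, i6, i0, i1, i2, i3, i4] →
      ∑ x : Fin 7 → V, (H (x i0) (x i1) (x i2) (x i3) (x i4) : ℤ)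
      = ∑ x : Fin 7 → V, (H (x 2) (x 3) (x 4) (x 5) (x 6) : ℤ) :=
    fun i0 i1 i2 i3 i4 i5 i6 hg =>
      psum7 (fun _ _ a b c d e => (H a b c d e : ℤ)) ![i5, i6, i0, i1, i2, i3, i4]
        (Finite.injective_iff_bijective.mp hg)
  have e0 : ∑ x : Fin 7 → V, (H (x 2) (x 3) (x 4) (x 5) (x 6) : ℤ)
      = (Fintype.card V : ℤ) ^ 2 * ∑ a, ∑ b, ∑ c, ∑ d, ∑ e, (H a b c d e : ℤ) := by
    rw [conv7 (fun _ _ a b c d e => (H a b c d e : ℤ))]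
    rw [sum_const, sum_const, card_univ, smul_smul, nsmul_eq_mul]
    push_cast
    ring
  simp only [S7, Nat.cast_add, sum_add_distrib]
  rw [f7 1 3 4 5 6 0 2 (by decide), f7 0 3 4 5 6 1 2 (by decide), f7 1 2 4 5 6 0 3 (by decide), f7 0 2 4 5 6 1 3 (by decide), f7 0 1 4 5 6 2 3 (by decide), f7 1 2 3 5 6 0 4 (by decide), f7 0 2 3 5 6 1 4 (by decide), f7 0 1 3 5 6 2 4 (by decide), f7 0 1 2 5 6 3 4 (by decide), f7 1 2 3 4 6 0 5 (by decide), f7 0 2 3 4 6 1 5 (by decide), f7 0 1 3 4 6 2 5 (by decide), f7 0 1 2 4 6 3 5 (by decide), f7 0 1 2 3 6 4 5 (by decide), f7 1 2 3 4 5 0 6 (by decide), f7 0 2 3 4 5 1 6 (by decide), f7 0 1 3 4 5 2 6 (by decide), f7 0 1 2 4 5 3 6 (by decide), f7 0 1 2 3 5 4 6 (by decide), f7 0 1 2 3 4 5 6 (by decide), e0]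
  ring

theorem sumU7 (u : ℕ → ℕ) :
    ∑ x : Fin 7 → V, (F5 (H (x 5) (x 6)) u (x 0) (x 1) (x 2) (x 3) (x 4) : ℤ)
      = ∑ p, ∑ q, SU (H p q) u := by
  have h := psum7 (fun p q a b c d e => (F5 (H p q) u a b c d e : ℤ)) ![5, 6, 0, 1, 2, 3, 4]
    (Finite.injective_iff_bijective.mp (by decide))
  have h2 := conv7 (fun p q a b c d e => (F5 (H p q) u a b c d e : ℤ))
  exact h.trans h2

end

/-- the bound for the sum of a symmetric function of five vertices with a covering property -/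
theorem bound7 {n : ℕ} (hn : 0 < n) (H : Fin n → Fin n → Fin n → Fin n → Fin n → ℕ) (hH : Sy5 H) (hcov : Cov H) :
    (126 * 1073741824 + 21 * 6442380511 - 6 * 39636771777) * (n : ℤ) ^ 5
      ≤ 126 * 1073741824 * ∑ a, ∑ b, ∑ c, ∑ d, ∑ e, (H a b c d e : ℤ) := by
  have hleaf : ∀ a b c d e f g, L7 H q5 uu a b c d e f g ≤ DD * S7 H a b c d e f g + C7 := by
    refine leaf7_all hH hcov csq csu ?_
    intro g01 g02 g12 g03 g13 g23 g04 g14 g24 g34 g05 g15 g25 g35 g45 h01 h02 h12 h03 h13 h23 h04 h14 h24 h34 h05 h15 h25 h35 h45 ht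
    have h2 := (B2_true (B2_true (B2_true (B2_true (B2_true (B2_true (B2_true (B2_true (B2_true (B2_true (B2_true (B2_true (B2_true (B2_true (B2_true seven0 h01) h02) h12) h03) h13) h23) h04) h14) h24) h34) h05) h15) h25) h35) h45)
    refine or_false_left h2 ?_
    rw [ht]
    rfl
  have hQ := lowerQ H hH 32 q5 lq 32768 1073741824 hq5
  have hU : 6442380511 * (n : ℤ) ^ 7 ≤ 6 * ∑ p, ∑ q, SU (H p q) uu := by
    have h1 : ∀ p q, 6442380511 * (n : ℤ) ^ 5 ≤ 6 * SU (H p q) uu := fun p q => three hn (H p q) (hH.lk p q)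
    have h2 : ∑ p : Fin n, ∑ q : Fin n, 6442380511 * (n : ℤ) ^ 5 ≤ ∑ p, ∑ q, 6 * SU (H p q) uu :=
      sum_le_sum fun p _ => sum_le_sum fun q _ => h1 p q
    simp only [← mul_sum] at h2
    simp only [sum_const, card_univ, Fintype.card_fin, nsmul_eq_mul] at h2
    linarith
  have key : ∑ x : Fin 7 → Fin n, (L7 H q5 uu (x 0) (x 1) (x 2) (x 3) (x 4) (x 5) (x 6) : ℤ)
      ≤ 1073741824 * ∑ x : Fin 7 → Fin n, (S7 H (x 0) (x 1) (x 2) (x 3) (x 4) (x 5) (x 6) : ℤ) + 39636771777 * (n : ℤ) ^ 7 := by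
    calc _ ≤ ∑ x : Fin 7 → Fin n, (1073741824 * (S7 H (x 0) (x 1) (x 2) (x 3) (x 4) (x 5) (x 6) : ℤ) + 39636771777) :=
          sum_le_sum fun x _ => by exact_mod_cast hleaf (x 0) (x 1) (x 2) (x 3) (x 4) (x 5) (x 6)
      _ = _ := by
          rw [sum_add_distrib, ← mul_sum, sum_const, card_univ, Fintype.card_fun, Fintype.card_fin, Fintype.card_fin,
            nsmul_eq_mul]
          push_cast
          ring
  have hF : ∑ x : Fin 7 → Fin n, (F7 H q5 uu (x 0) (x 1) (x 2) (x 3) (x 4) (x 5) (x 6) : ℤ)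
      = ∑ x : Fin 7 → Fin n, (Q7 H q5 (x 0) (x 1) (x 2) (x 3) (x 4) (x 5) (x 6) : ℤ) + ∑ p, ∑ q, SU (H p q) uu := by
    rw [← sumU7, ← sum_add_distrib]
    refine sum_congr rfl fun x _ => ?_
    unfold F7
    push_cast
    rfl
  rw [sumL7, sumS7, hF, Fintype.card_fin] at key
  rw [Fintype.card_fin] at hQ
  have hn' : (0 : ℤ) < (n : ℤ) ^ 2 := by positivity
  set S : ℤ := ∑ a, ∑ b, ∑ c, ∑ d, ∑ e, (H a b c d e : ℤ) with hS
  have h2 : (n : ℤ) ^ 2 * ((126 * 1073741824 + 21 * 6442380511 - 6 * 39636771777) * (n : ℤ) ^ 5)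
      ≤ (n : ℤ) ^ 2 * (126 * 1073741824 * S) := by
    have e1 : (n : ℤ) ^ 2 * ((126 * 1073741824 + 21 * 6442380511 - 6 * 39636771777) * (n : ℤ) ^ 5)
      = 126 * (1073741824 * (n : ℤ) ^ 7) + 21 * (6442380511 * (n : ℤ) ^ 7) - 6 * (39636771777 * (n : ℤ) ^ 7) := by ring
    rw [e1]
    linarith
  exact le_of_mul_le_mul_left h2 hn'

end Pool.Agent.J6H68.K65
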