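import Pool.Agent.J6H68.K65.Bound7
import Pool.Agent.W843.Lnk.Link

/-! The upper bound for the Turán density of `K_6^5`. -/

set_option autoImplicit false
set_option maxRecDepth 100000
set_option maxHeartbeats 4000000
open Finset

namespace Pool.Agent.J6H68.K65

open Pool.Agent.H122R2.N6 (Bt)
open Pool.Agent.H120R2.Clique
open Pool.Agent.W843.Lnk

section
variable {V : Type} [Fintype V] [DecidableEq V]

/-- one on the tuples which are not an edge -/
def HG (G : Finset (Finset V)) (a b c d e : V) : ℕ :=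
  fe G (insert a (insert b (insert c (insert d (insert e ∅)))))

theorem HG_Sy5 (G : Finset (Finset V)) : Sy5 (HG G) where
  b a b c d e := by
    unfold HG fe
    split_ifs
    · exact Or.inl rfl
    · exact Or.inr rfl
  s1 a b c d e := by unfold HG; rw [Finset.insert_comm]
  s2 a b c d e := by unfold HG; rw [Finset.insert_comm b c]
  s3 a b c d e := by unfold HG; rw [Finset.insert_comm c d]
  s4 a b c d e := by unfold HG; rw [Finset.insert_comm d e]

theorem sumHG (G : Finset (Finset V)) :
    ∑ y : Fin 5 → V, (fe G (univ.image y) : ℤ) = ∑ a, ∑ b, ∑ c, ∑ d, ∑ e, (HG G a b c d e : ℤ) := by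
  rw [Pool.Agent.W843.Lnk.sum_cons]
  refine sum_congr rfl fun a _ => ?_
  rw [Pool.Agent.W843.Lnk.sum_cons]
  refine sum_congr rfl fun b _ => ?_
  rw [Pool.Agent.W843.Lnk.sum_cons]
  refine sum_congr rfl fun c _ => ?_
  rw [Pool.Agent.W843.Lnk.sum_cons]
  refine sum_congr rfl fun d _ => ?_
  rw [Pool.Agent.W843.Lnk.sum_cons]
  refine sum_congr rfl fun e _ => ?_
  rw [Fintype.sum_unique]
  rw [image_cons, image_cons, image_cons, image_cons, image_cons]
  rfl

end

theorem cov_HG {n : ℕ} {G : Finset (Finset (Fin n))} (hr : ∀ A ∈ G, A.card = 5) (hK : ¬ HasClique G 5 6) :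
    Cov (HG G) := by
  intro a b c d e f
  have h := cover (r := 5) (by norm_num) hr hK
    (Fin.cons a (Fin.cons b (Fin.cons c (Fin.cons d (Fin.cons e (Fin.cons f Fin.elim0))))) : Fin 6 → Fin n)
  rw [← card_pos] at h
  have h2 := card_fe G (Fin.cons a (Fin.cons b (Fin.cons c (Fin.cons d (Fin.cons e (Fin.cons f Fin.elim0))))) : Fin 6 → Fin n) univ
  rw [univ_inter] at h2
  rw [h2] at h
  rw [Fin.sum_univ_succ, Fin.sum_univ_succ, Fin.sum_univ_succ, Fin.sum_univ_succ, Fin.sum_univ_succ, Fin.sum_univ_one] at h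
  simp only [Pool.Agent.W843.Lnk.erase_cons, erase_cons_succ, image_cons] at h
  exact h

/-- the number of edges of a 5-graph without a clique on six vertices -/
theorem card_le {n : ℕ} (hn : 0 < n) {G : Finset (Finset (Fin n))} (hr : ∀ A ∈ G, A.card = 5) (hK : ¬ HasClique G 5 6) :
    126 * 1073741824 * ((Nat.factorial 5 : ℤ) * G.card)
      ≤ (126 * 1073741824 - (126 * 1073741824 + 21 * 6442380511 - 6 * 39636771777)) * (n : ℤ) ^ 5 := by
  have h1 := bound7 hn (HG G) (HG_Sy5 G) (cov_HG hr hK)
  have h2 := orders_le G hr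
  rw [sumHG] at h2
  have h3 : (0 : ℤ) ≤ 126 * 1073741824 := by norm_num
  have h4 := mul_le_mul_of_nonneg_left h2 h3
  linarith

/-- the Turán density of `K_6^5` is at most `0.75785` -/
theorem main : turanDensity 5 6 ≤ 0.75785 := by
  classical
  refine density_le fun n hn => ?_
  by_contra hcon
  push Not at hcon
  have hc0 : ∀ G : Finset (Finset (Fin n)), (∀ A ∈ G, A.card = 5) → ¬ HasClique G 5 6 →
      ((5).factorial : ℝ) * (G.card : ℝ) ≤ 0.75785 * (n : ℝ) ^ 5 := by
    intro G h1 h2
    have h4 := card_le hn h1 h2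
    have h5 : (126 * 1073741824 : ℝ) * (((5).factorial : ℝ) * (G.card : ℝ))
        ≤ (126 * 1073741824 - (126 * 1073741824 + 21 * 6442380511 - 6 * 39636771777)) * (n : ℝ) ^ 5 := by
      exact_mod_cast h4
    have hp : (0 : ℝ) ≤ (n : ℝ) ^ 5 := by positivity
    have h6 : (126 * 1073741824 - (126 * 1073741824 + 21 * 6442380511 - 6 * 39636771777)) * (n : ℝ) ^ 5
        ≤ 126 * 1073741824 * (0.75785 * (n : ℝ) ^ 5) := by
      have h7 : (126 * 1073741824 - (126 * 1073741824 + 21 * 6442380511 - 6 * 39636771777) : ℝ)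
        ≤ 126 * 1073741824 * 0.75785 := by norm_num
      have h8 := mul_le_mul_of_nonneg_right h7 hp
      linarith
    have h9 := le_trans h5 h6
    exact le_of_mul_le_mul_left h9 (by norm_num)
  have hne : ((((univ : Finset (Fin n)).powersetCard 5).powerset).filter
      (fun G => ¬ HasClique G 5 6)).Nonempty := by
    refine ⟨∅, ?_⟩
    rw [mem_filter, mem_powerset]
    refine ⟨empty_subset _, ?_⟩
    rintro ⟨A, hA, hs⟩
    have : (A.powersetCard 5).Nonempty := powersetCard_nonempty.mpr (by omega)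
    obtain ⟨x, hx⟩ := this
    exact absurd (hs hx) (by simp)
  obtain ⟨G, hG, he⟩ := Finset.exists_mem_eq_sup _ hne Finset.card
  have h2 : ex n 5 6 = G.card := by
    unfold ex
    rw [← he]
  rw [mem_filter, mem_powerset] at hG
  have h1 := hc0 G (fun A hA => (mem_powersetCard.mp (hG.1 hA)).2) hG.2
  rw [h2] at hcon
  linarith

end Pool.Agent.J6H68.K65
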