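import Pool.Agent.J6H68.K65.Fin

/-!
# `π(K_6^5) ≤ 0.75785`

The notions are those of `Pool.Agent.H120R2.CliqueDefs`: `ex n k m = ex(n, K_m^k)` and
`turanDensity k m = π(K_m^k)`.

Outline (`Pool.Agent.J6H68.K65`).  Let `T` be the family of non-edges of a 5-graph without `K_6^5`;
every six vertices contain a member of `T`.  For seven vertices let `γ` be the graph of the pairs
whose complement in the seven vertices is in `T`; it has no isolated vertex.  Two sums of squares
are combined.  (1) For every 3-graph `E` (in the application: the link in `T` of a pair of vertices)
flags on six vertices with types on two and on four vertices give a lower bound for the average of a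
function `U` of the isomorphism class of `E` on five vertices; this is checked by the kernel on all
3-graphs on six vertices.  (2) For `T` the flags of the types on five vertices give a lower bound
for the average over seven vertices of a quadratic form in the neighbourhoods in `γ` of two
vertices.  For every graph `γ` on seven vertices without isolated vertices the sum over the 21 pairs
of vertices of the quadratic form and of the value of `U` for the link of the pair on the other five
vertices (which depends on `γ` on these five vertices only) is at most a constant plus a multiple of
the number of edges of `γ`; this is checked by the kernel on representatives for the graphs on six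
vertices and all neighbourhoods of a seventh vertex.
-/

set_option autoImplicit false

open Filter Topology

namespace Pool.Agent.Results.MP_a4d830_co.FiveUniformSixClique

open Pool.Agent.H120R2.Clique

/-- The limit `π(K_6^5)` of `ex(n, K_6^5) / C(n,5)` exists and is at most `0.75785`. -/
theorem result :
    Tendsto (fun n : ℕ => (ex n 5 6 : ℝ) / (n.choose 5 : ℝ)) atTop (𝓝 (turanDensity 5 6)) ∧
    turanDensity 5 6 ≤ 0.75785 :=
  ⟨ratio_tendsto 5 6, Pool.Agent.J6H68.K65.main⟩

end Pool.Agent.Results.MP_a4d830_co.FiveUniformSixClique
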