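import Pool.Agent.W846.K54.Walk
import Pool.Agent.H122R2.N6.Bound

/-!
Six-vertex flags for 3-graphs with a function of the structure on five vertices.
-/

set_option autoImplicit false
set_option maxRecDepth 100000
set_option maxHeartbeats 4000000
open Finset

namespace Pool.Agent.J6H68.K65

open Pool.Agent.H122R2.N6 hiding TB tg walk walk_all chk chk_sound rep_good walk_good leaf_all good_sw0 good_sw1 good_sw2 good_sw3 Good
open Pool.Agent.W846.K54 (tg walk walk_all)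

def cd10 (x0 x1 x2 x3 x4 x5 x6 x7 x8 x9 : ℕ) : ℕ :=
  Nat.add x0 (Nat.add (Nat.mul 2 x1) (Nat.add (Nat.mul 4 x2) (Nat.add (Nat.mul 8 x3)
    (Nat.add (Nat.mul 16 x4) (Nat.add (Nat.mul 32 x5) (Nat.add (Nat.mul 64 x6)
      (Nat.add (Nat.mul 128 x7) (Nat.add (Nat.mul 256 x8) (Nat.mul 512 x9)))))))))

def leaf5 (u : ℕ → ℕ) (b012 b013 b023 b123 b014 b024 b124 b034 b134 b234 b015 b025 b125 b035 b135 b235 b045 b145 b245 b345 : ℕ) : ℕ :=
  Nat.add (u (cd10 b012 b013 b023 b123 b014 b024 b124 b034 b134 b234))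
    (Nat.add (u (cd10 b012 b013 b023 b123 b015 b025 b125 b035 b135 b235))
    (Nat.add (u (cd10 b012 b014 b024 b124 b015 b025 b125 b045 b145 b245))
    (Nat.add (u (cd10 b013 b014 b034 b134 b015 b035 b135 b045 b145 b345))
    (Nat.add (u (cd10 b023 b024 b034 b234 b025 b035 b235 b045 b245 b345))
    (u (cd10 b123 b124 b134 b234 b125 b135 b235 b145 b245 b345))))))

/-- the leaf inequality for all extensions of a given structure on the first five vertices -/
def chk (q4 : ℕ → ℕ → ℕ → ℕ) (q2 : ℕ → ℕ → ℕ) (u : ℕ → ℕ) (C : ℕ) (b012 b013 b023 b123 b014 b024 b124 b034 b134 b234 : ℕ) : Bool :=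
  B2 fun b015 => B2 fun b025 => B2 fun b125 => B2 fun b035 => B2 fun b135 => B2 fun b235 => B2 fun b045 => B2 fun b145 => B2 fun b245 => B2 fun b345 => Nat.ble (Nat.add (Nat.add (leaf4 q4 b012 b013 b023 b123 b014 b024 b124 b034 b134 b234 b015 b025 b125 b035 b135 b235 b045 b145 b245 b345) (leaf2 q2 b012 b013 b023 b123 b014 b024 b124 b034 b134 b234 b015 b025 b125 b035 b135 b235 b045 b145 b245 b345)) (leaf5 u b012 b013 b023 b123 b014 b024 b124 b034 b134 b234 b015 b025 b125 b035 b135 b235 b045 b145 b245 b345)) C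

/-- the function is invariant under relabelling -/
def symU (u : ℕ → ℕ) : Bool := B2 fun b012 => B2 fun b013 => B2 fun b023 => B2 fun b123 => B2 fun b014 => B2 fun b024 => B2 fun b124 => B2 fun b034 => B2 fun b134 => B2 fun b234 =>
  and (Nat.beq (u (cd10 b012 b013 b123 b023 b014 b124 b024 b134 b034 b234)) (u (cd10 b012 b013 b023 b123 b014 b024 b124 b034 b134 b234)))
  (and (Nat.beq (u (cd10 b012 b023 b013 b123 b024 b014 b124 b034 b234 b134)) (u (cd10 b012 b013 b023 b123 b014 b024 b124 b034 b134 b234)))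
  (and (Nat.beq (u (cd10 b013 b012 b023 b123 b014 b034 b134 b024 b124 b234)) (u (cd10 b012 b013 b023 b123 b014 b024 b124 b034 b134 b234)))
  (Nat.beq (u (cd10 b012 b014 b024 b124 b013 b023 b123 b034 b134 b234)) (u (cd10 b012 b013 b023 b123 b014 b024 b124 b034 b134 b234)))))

section
variable {V : Type} (E : V → V → V → ℕ)

def F5 (u : ℕ → ℕ) (a b c d e : V) : ℕ :=
  u (cd10 (E a b c) (E a b d) (E a c d) (E b c d) (E a b e) (E a c e) (E b c e) (E a d e) (E b d e) (E c d e))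

def L5 (u : ℕ → ℕ) (a b c d e f : V) : ℕ :=
  F5 E u a b c d e + (F5 E u a b c d f + (F5 E u a b c e f + (F5 E u a b d e f + (F5 E u a c d e f + F5 E u b c d e f))))

variable {E}

theorem symU_all {u : ℕ → ℕ} (hs : symU u = true) {b012 b013 b023 b123 b014 b024 b124 b034 b134 b234 : ℕ}
    (h0 : Bt b012) (h1 : Bt b013) (h2 : Bt b023) (h3 : Bt b123) (h4 : Bt b014) (h5 : Bt b024) (h6 : Bt b124)
    (h7 : Bt b034) (h8 : Bt b134) (h9 : Bt b234) :
    (u (cd10 b012 b013 b123 b023 b014 b124 b024 b134 b034 b234) = u (cd10 b012 b013 b023 b123 b014 b024 b124 b034 b134 b234)) ∧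
    (u (cd10 b012 b023 b013 b123 b024 b014 b124 b034 b234 b134) = u (cd10 b012 b013 b023 b123 b014 b024 b124 b034 b134 b234)) ∧
    (u (cd10 b013 b012 b023 b123 b014 b034 b134 b024 b124 b234) = u (cd10 b012 b013 b023 b123 b014 b024 b124 b034 b134 b234)) ∧
    (u (cd10 b012 b014 b024 b124 b013 b023 b123 b034 b134 b234) = u (cd10 b012 b013 b023 b123 b014 b024 b124 b034 b134 b234)) := by
  have h := (B2_true (B2_true (B2_true (B2_true (B2_true (B2_true (B2_true (B2_true (B2_true (B2_true hs h0) h1) h2) h3) h4) h5) h6) h7) h8) h9)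
  simp only [Bool.and_eq_true] at h
  exact ⟨Nat.eq_of_beq_eq_true h.1, Nat.eq_of_beq_eq_true h.2.1, Nat.eq_of_beq_eq_true h.2.2.1,
    Nat.eq_of_beq_eq_true h.2.2.2⟩

theorem F5_s1 (hE : Sy E) {u : ℕ → ℕ} (hs : symU u = true) (a b c d e : V) :
    F5 E u b a c d e = F5 E u a b c d e := by
  have h := (symU_all hs (hE.b a b c) (hE.b a b d) (hE.b a c d) (hE.b b c d) (hE.b a b e) (hE.b a c e) (hE.b b c e)
    (hE.b a d e) (hE.b b d e) (hE.b c d e)).1
  unfold F5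
  rw [← h, hE.h213 a b c, hE.h213 a b d, hE.h213 a b e]

theorem F5_s2 (hE : Sy E) {u : ℕ → ℕ} (hs : symU u = true) (a b c d e : V) :
    F5 E u a c b d e = F5 E u a b c d e := by
  have h := (symU_all hs (hE.b a b c) (hE.b a b d) (hE.b a c d) (hE.b b c d) (hE.b a b e) (hE.b a c e) (hE.b b c e)
    (hE.b a d e) (hE.b b d e) (hE.b c d e)).2.1
  unfold F5
  rw [← h, hE.h132 a b c, hE.h213 b c d, hE.h213 b c e]

theorem F5_s3 (hE : Sy E) {u : ℕ → ℕ} (hs : symU u = true) (a b c d e : V) :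
    F5 E u a b d c e = F5 E u a b c d e := by
  have h := (symU_all hs (hE.b a b c) (hE.b a b d) (hE.b a c d) (hE.b b c d) (hE.b a b e) (hE.b a c e) (hE.b b c e)
    (hE.b a d e) (hE.b b d e) (hE.b c d e)).2.2.1
  unfold F5
  rw [← h, hE.h132 a c d, hE.h132 b c d, hE.h213 c d e]

theorem F5_s4 (hE : Sy E) {u : ℕ → ℕ} (hs : symU u = true) (a b c d e : V) :
    F5 E u a b c e d = F5 E u a b c d e := by
  have h := (symU_all hs (hE.b a b c) (hE.b a b d) (hE.b a c d) (hE.b b c d) (hE.b a b e) (hE.b a c e) (hE.b b c e)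
    (hE.b a d e) (hE.b b d e) (hE.b c d e)).2.2.2
  unfold F5
  rw [← h, hE.h132 a d e, hE.h132 b d e, hE.h132 c d e]

theorem L5_sw0 (hE : Sy E) {u : ℕ → ℕ} (hs : symU u = true) (a b c d e f : V) :
    L5 E u b a c d e f = L5 E u a b c d e f := by
  unfold L5
  rw [F5_s1 hE hs a b c d e, F5_s1 hE hs a b c d f, F5_s1 hE hs a b c e f, F5_s1 hE hs a b d e f]
  ring

theorem L5_sw1 (hE : Sy E) {u : ℕ → ℕ} (hs : symU u = true) (a b c d e f : V) :
    L5 E u a c b d e f = L5 E u a b c d e f := by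
  unfold L5
  rw [F5_s2 hE hs a b c d e, F5_s2 hE hs a b c d f, F5_s2 hE hs a b c e f, F5_s1 hE hs b c d e f]
  ring

theorem L5_sw2 (hE : Sy E) {u : ℕ → ℕ} (hs : symU u = true) (a b c d e f : V) :
    L5 E u a b d c e f = L5 E u a b c d e f := by
  unfold L5
  rw [F5_s3 hE hs a b c d e, F5_s3 hE hs a b c d f, F5_s2 hE hs a c d e f, F5_s2 hE hs b c d e f]
  ring

theorem L5_sw3 (hE : Sy E) {u : ℕ → ℕ} (hs : symU u = true) (a b c d e f : V) :
    L5 E u a b c e d f = L5 E u a b c d e f := by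
  unfold L5
  rw [F5_s4 hE hs a b c d e, F5_s3 hE hs a b d e f, F5_s3 hE hs a c d e f, F5_s3 hE hs b c d e f]
  ring

theorem chk_sound (hE : Sy E) {q4 : ℕ → ℕ → ℕ → ℕ} {q2 : ℕ → ℕ → ℕ} {u : ℕ → ℕ} {C : ℕ} (a b c d e f : V)
    (h : chk q4 q2 u C (E a b c) (E a b d) (E a c d) (E b c d) (E a b e) (E a c e) (E b c e) (E a d e) (E b d e) (E c d e) = true) :
    K4l E q4 a b c d e f + K2l E q2 a b c d e f + L5 E u a b c d e f ≤ C :=
  Nat.le_of_ble_eq_true (B2_true (B2_true (B2_true (B2_true (B2_true (B2_true (B2_true (B2_true (B2_true (B2_true h (hE.b a b f)) (hE.b a c f)) (hE.b b c f)) (hE.b a d f)) (hE.b b d f)) (hE.b c d f)) (hE.b a e f)) (hE.b b e f)) (hE.b c e f)) (hE.b d e f))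

def Good (E : V → V → V → ℕ) (q4 : ℕ → ℕ → ℕ → ℕ) (q2 : ℕ → ℕ → ℕ) (u : ℕ → ℕ) (C : ℕ) (b012 b013 b023 b123 b014 b024 b124 b034 b134 b234 : ℕ) : Prop :=
  ∀ a b c d e f : V, E a b c = b012 → E a b d = b013 → E a c d = b023 → E b c d = b123 → E a b e = b014 → E a c e = b024 → E b c e = b124 → E a d e = b034 → E b d e = b134 → E c d e = b234 →
    L4 E q4 a b c d e f + L2 E q2 a b c d e f + L5 E u a b c d e f ≤ C

theorem rep_good (hE : Sy E) {q4 : ℕ → ℕ → ℕ → ℕ} {q2 : ℕ → ℕ → ℕ} {u : ℕ → ℕ} {C : ℕ}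
    (hc : ∀ b012 b013 b023 b123 b014 b024 b124 b034 b134 b234 : ℕ, Bt b012 → Bt b013 → Bt b023 → Bt b123 → Bt b014 → Bt b024 → Bt b124 → Bt b034 → Bt b134 → Bt b234 → tg b012 b013 b023 b123 b014 b024 b124 b034 b134 b234 = 4 → chk q4 q2 u C b012 b013 b023 b123 b014 b024 b124 b034 b134 b234 = true)
    (b012 b013 b023 b123 b014 b024 b124 b034 b134 b234 : ℕ) (ht : tg b012 b013 b023 b123 b014 b024 b124 b034 b134 b234 = 4) : Good E q4 q2 u C b012 b013 b023 b123 b014 b024 b124 b034 b134 b234 := by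
  intro a b c d e f h0 h1 h2 h3 h4 h5 h6 h7 h8 h9
  subst h0 h1 h2 h3 h4 h5 h6 h7 h8 h9
  have h := hc _ _ _ _ _ _ _ _ _ _ (hE.b _ _ _) (hE.b _ _ _) (hE.b _ _ _) (hE.b _ _ _) (hE.b _ _ _) (hE.b _ _ _) (hE.b _ _ _) (hE.b _ _ _) (hE.b _ _ _) (hE.b _ _ _) ht
  have h2 := chk_sound hE a b c d e f h
  rwa [K4l_eq E q4 hE.h132 hE.h231 hE.h213 hE.h312, K2l_eq E q2 hE.h132 hE.h231 hE.h213 hE.h312] at h2

section
variable {q4 : ℕ → ℕ → ℕ → ℕ} {q2 : ℕ → ℕ → ℕ} {u : ℕ → ℕ} {C : ℕ}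

theorem good_sw0 (hE : Sy E) (hs4 : sym4 q4 = true) (hs2 : sym2 q2 = true) (hsu : symU u = true)
    (b012 b013 b023 b123 b014 b024 b124 b034 b134 b234 : ℕ)
    (h : Good E q4 q2 u C b012 b013 b123 b023 b014 b124 b024 b134 b034 b234) : Good E q4 q2 u C b012 b013 b023 b123 b014 b024 b124 b034 b134 b234 := by
  intro a b c d e f h0 h1 h2 h3 h4 h5 h6 h7 h8 h9
  have h' := h b a c d e f ((hE.h213 _ _ _).trans h0) ((hE.h213 _ _ _).trans h1) h3 h2 ((hE.h213 _ _ _).trans h4) h6 h5 h8 h7 h9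
  rwa [L4_sw0 hE hs4, L2_sw0 hE hs2, L5_sw0 hE hsu] at h'

theorem good_sw1 (hE : Sy E) (hs4 : sym4 q4 = true) (hs2 : sym2 q2 = true) (hsu : symU u = true)
    (b012 b013 b023 b123 b014 b024 b124 b034 b134 b234 : ℕ)
    (h : Good E q4 q2 u C b012 b023 b013 b123 b024 b014 b124 b034 b234 b134) : Good E q4 q2 u C b012 b013 b023 b123 b014 b024 b124 b034 b134 b234 := by
  intro a b c d e f h0 h1 h2 h3 h4 h5 h6 h7 h8 h9
  have h' := h a c b d e f ((hE.h132 _ _ _).trans h0) h2 h1 ((hE.h213 _ _ _).trans h3) h5 h4 ((hE.h213 _ _ _).trans h6) h7 h9 h8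
  rwa [L4_sw1 hE hs4, L2_sw1 hE hs2, L5_sw1 hE hsu] at h'

theorem good_sw2 (hE : Sy E) (hs4 : sym4 q4 = true) (hs2 : sym2 q2 = true) (hsu : symU u = true)
    (b012 b013 b023 b123 b014 b024 b124 b034 b134 b234 : ℕ)
    (h : Good E q4 q2 u C b013 b012 b023 b123 b014 b034 b134 b024 b124 b234) : Good E q4 q2 u C b012 b013 b023 b123 b014 b024 b124 b034 b134 b234 := by
  intro a b c d e f h0 h1 h2 h3 h4 h5 h6 h7 h8 h9
  have h' := h a b d c e f h1 h0 ((hE.h132 _ _ _).trans h2) ((hE.h132 _ _ _).trans h3) h4 h7 h8 h5 h6 ((hE.h213 _ _ _).trans h9)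
  rwa [L4_sw2 hE hs4, L2_sw2 hE hs2, L5_sw2 hE hsu] at h'

theorem good_sw3 (hE : Sy E) (hs4 : sym4 q4 = true) (hs2 : sym2 q2 = true) (hsu : symU u = true)
    (b012 b013 b023 b123 b014 b024 b124 b034 b134 b234 : ℕ)
    (h : Good E q4 q2 u C b012 b014 b024 b124 b013 b023 b123 b034 b134 b234) : Good E q4 q2 u C b012 b013 b023 b123 b014 b024 b124 b034 b134 b234 := by
  intro a b c d e f h0 h1 h2 h3 h4 h5 h6 h7 h8 h9
  have h' := h a b c e d f h0 h4 h5 h6 h1 h2 h3 ((hE.h132 _ _ _).trans h7) ((hE.h132 _ _ _).trans h8) ((hE.h132 _ _ _).trans h9)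
  rwa [L4_sw3 hE hs4, L2_sw3 hE hs2, L5_sw3 hE hsu] at h'

theorem walk_good (hE : Sy E) (hs4 : sym4 q4 = true) (hs2 : sym2 q2 = true) (hsu : symU u = true)
    (hr : ∀ b012 b013 b023 b123 b014 b024 b124 b034 b134 b234 : ℕ, tg b012 b013 b023 b123 b014 b024 b124 b034 b134 b234 = 4 → Good E q4 q2 u C b012 b013 b023 b123 b014 b024 b124 b034 b134 b234) (n : ℕ) :
    ∀ b012 b013 b023 b123 b014 b024 b124 b034 b134 b234 : ℕ, walk n b012 b013 b023 b123 b014 b024 b124 b034 b134 b234 = true → Good E q4 q2 u C b012 b013 b023 b123 b014 b024 b124 b034 b134 b234 := by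
  induction n with
  | zero =>
    intro b012 b013 b023 b123 b014 b024 b124 b034 b134 b234 h
    exact hr _ _ _ _ _ _ _ _ _ _ (Nat.eq_of_beq_eq_true h)
  | succ n ih =>
    intro b012 b013 b023 b123 b014 b024 b124 b034 b134 b234 h
    change (cond (Nat.beq (tg b012 b013 b023 b123 b014 b024 b124 b034 b134 b234) 4) true
      (cond (Nat.beq (tg b012 b013 b023 b123 b014 b024 b124 b034 b134 b234) 0) (walk n b012 b013 b123 b023 b014 b124 b024 b134 b034 b234)
      (cond (Nat.beq (tg b012 b013 b023 b123 b014 b024 b124 b034 b134 b234) 1) (walk n b012 b023 b013 b123 b024 b014 b124 b034 b234 b134)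
      (cond (Nat.beq (tg b012 b013 b023 b123 b014 b024 b124 b034 b134 b234) 2) (walk n b013 b012 b023 b123 b014 b034 b134 b024 b124 b234)
      (cond (Nat.beq (tg b012 b013 b023 b123 b014 b024 b124 b034 b134 b234) 3) (walk n b012 b014 b024 b124 b013 b023 b123 b034 b134 b234) false))))) = true at h
    cases h4 : Nat.beq (tg b012 b013 b023 b123 b014 b024 b124 b034 b134 b234) 4 with
    | true => exact hr _ _ _ _ _ _ _ _ _ _ (Nat.eq_of_beq_eq_true h4)
    | false =>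
    rw [h4] at h
    cases h0 : Nat.beq (tg b012 b013 b023 b123 b014 b024 b124 b034 b134 b234) 0 with
    | true => rw [h0] at h; exact good_sw0 hE hs4 hs2 hsu _ _ _ _ _ _ _ _ _ _ (ih _ _ _ _ _ _ _ _ _ _ h)
    | false =>
    rw [h0] at h
    cases h1 : Nat.beq (tg b012 b013 b023 b123 b014 b024 b124 b034 b134 b234) 1 with
    | true => rw [h1] at h; exact good_sw1 hE hs4 hs2 hsu _ _ _ _ _ _ _ _ _ _ (ih _ _ _ _ _ _ _ _ _ _ h)
    | false =>
    rw [h1] at h
    cases h2 : Nat.beq (tg b012 b013 b023 b123 b014 b024 b124 b034 b134 b234) 2 with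
    | true => rw [h2] at h; exact good_sw2 hE hs4 hs2 hsu _ _ _ _ _ _ _ _ _ _ (ih _ _ _ _ _ _ _ _ _ _ h)
    | false =>
    rw [h2] at h
    cases h3 : Nat.beq (tg b012 b013 b023 b123 b014 b024 b124 b034 b134 b234) 3 with
    | true => rw [h3] at h; exact good_sw3 hE hs4 hs2 hsu _ _ _ _ _ _ _ _ _ _ (ih _ _ _ _ _ _ _ _ _ _ h)
    | false => rw [h3] at h; simp at h

theorem leaf_all (hE : Sy E) (hs4 : sym4 q4 = true) (hs2 : sym2 q2 = true) (hsu : symU u = true)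
    (hc : ∀ b012 b013 b023 b123 b014 b024 b124 b034 b134 b234 : ℕ, Bt b012 → Bt b013 → Bt b023 → Bt b123 → Bt b014 → Bt b024 → Bt b124 → Bt b034 → Bt b134 → Bt b234 → tg b012 b013 b023 b123 b014 b024 b124 b034 b134 b234 = 4 → chk q4 q2 u C b012 b013 b023 b123 b014 b024 b124 b034 b134 b234 = true)
    (a b c d e f : V) : L4 E q4 a b c d e f + L2 E q2 a b c d e f + L5 E u a b c d e f ≤ C := by
  have hw := (B2_true (B2_true (B2_true (B2_true (B2_true (B2_true (B2_true (B2_true (B2_true (B2_true walk_all (hE.b a b c)) (hE.b a b d)) (hE.b a c d)) (hE.b b c d)) (hE.b a b e)) (hE.b a c e)) (hE.b b c e)) (hE.b a d e)) (hE.b b d e)) (hE.b c d e))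
  exact walk_good hE hs4 hs2 hsu (fun b012 b013 b023 b123 b014 b024 b124 b034 b134 b234 h4 => rep_good hE hc b012 b013 b023 b123 b014 b024 b124 b034 b134 b234 h4) _ _ _ _ _ _ _ _ _ _ _ hw
    a b c d e f rfl rfl rfl rfl rfl rfl rfl rfl rfl rfl

end
end
end Pool.Agent.J6H68.K65
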