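import Pool.Agent.J6H68.K65.Leaf3

/-!
The graph of missing pairs of seven vertices of a 5-graph.
-/

set_option autoImplicit false
set_option maxRecDepth 100000
set_option maxHeartbeats 4000000
open Finset

namespace Pool.Agent.J6H68.K65

open Pool.Agent.H122R2.N6 (Bt B2 B2_true Sy or_false_left)

def cd5 (x0 x1 x2 x3 x4 : ℕ) : ℕ :=
  Nat.add x0 (Nat.add (Nat.mul 2 x1) (Nat.add (Nat.mul 4 x2) (Nat.add (Nat.mul 8 x3) (Nat.mul 16 x4))))

/-- the form is invariant under relabelling of the roots and exchange of the flags -/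
def symQ (q : ℕ → ℕ → ℕ → ℕ) : Bool := B2 fun s => B2 fun i0 => B2 fun i1 => B2 fun i2 => B2 fun i3 => B2 fun i4 => B2 fun j0 => B2 fun j1 => B2 fun j2 => B2 fun j3 => B2 fun j4 =>
  (and (Nat.beq (q s (cd5 i1 i0 i2 i3 i4) (cd5 j1 j0 j2 j3 j4)) (q s (cd5 i0 i1 i2 i3 i4) (cd5 j0 j1 j2 j3 j4))) (and (Nat.beq (q s (cd5 i0 i2 i1 i3 i4) (cd5 j0 j2 j1 j3 j4)) (q s (cd5 i0 i1 i2 i3 i4) (cd5 j0 j1 j2 j3 j4))) (and (Nat.beq (q s (cd5 i0 i1 i3 i2 i4) (cd5 j0 j1 j3 j2 j4)) (q s (cd5 i0 i1 i2 i3 i4) (cd5 j0 j1 j2 j3 j4))) (and (Nat.beq (q s (cd5 i0 i1 i2 i4 i3) (cd5 j0 j1 j2 j4 j3)) (q s (cd5 i0 i1 i2 i3 i4) (cd5 j0 j1 j2 j3 j4))) (Nat.beq (q s (cd5 j0 j1 j2 j3 j4) (cd5 i0 i1 i2 i3 i4)) (q s (cd5 i0 i1 i2 i3 i4) (cd5 j0 j1 j2 j3 j4)))))))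

theorem symQ_all {q : ℕ → ℕ → ℕ → ℕ} (hs : symQ q = true) {s i0 i1 i2 i3 i4 j0 j1 j2 j3 j4 : ℕ} (h : Bt s) (hi0 : Bt i0) (hi1 : Bt i1) (hi2 : Bt i2) (hi3 : Bt i3) (hi4 : Bt i4) (hj0 : Bt j0) (hj1 : Bt j1) (hj2 : Bt j2) (hj3 : Bt j3) (hj4 : Bt j4) :
    (q s (cd5 i1 i0 i2 i3 i4) (cd5 j1 j0 j2 j3 j4) = q s (cd5 i0 i1 i2 i3 i4) (cd5 j0 j1 j2 j3 j4)) ∧ (q s (cd5 i0 i2 i1 i3 i4) (cd5 j0 j2 j1 j3 j4) = q s (cd5 i0 i1 i2 i3 i4) (cd5 j0 j1 j2 j3 j4)) ∧ (q s (cd5 i0 i1 i3 i2 i4) (cd5 j0 j1 j3 j2 j4) = q s (cd5 i0 i1 i2 i3 i4) (cd5 j0 j1 j2 j3 j4)) ∧ (q s (cd5 i0 i1 i2 i4 i3) (cd5 j0 j1 j2 j4 j3) = q s (cd5 i0 i1 i2 i3 i4) (cd5 j0 j1 j2 j3 j4)) ∧ (q s (cd5 j0 j1 j2 j3 j4) (cd5 i0 i1 i2 i3 i4) = q s (cd5 i0 i1 i2 i3 i4) (cd5 j0 j1 j2 j3 j4)) := by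
  have h := (B2_true (B2_true (B2_true (B2_true (B2_true (B2_true (B2_true (B2_true (B2_true (B2_true (B2_true hs h) hi0) hi1) hi2) hi3) hi4) hj0) hj1) hj2) hj3) hj4)
  simp only [Bool.and_eq_true] at h
  exact ⟨Nat.eq_of_beq_eq_true h.1, Nat.eq_of_beq_eq_true h.2.1, Nat.eq_of_beq_eq_true h.2.2.1, Nat.eq_of_beq_eq_true h.2.2.2.1, Nat.eq_of_beq_eq_true h.2.2.2.2⟩

/-- symmetric 0/1-valued functions of five vertices -/
structure Sy5 {V : Type} (H : V → V → V → V → V → ℕ) : Prop where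
  b : ∀ a b c d e, Bt (H a b c d e)
  s1 : ∀ a b c d e, H b a c d e = H a b c d e
  s2 : ∀ a b c d e, H a c b d e = H a b c d e
  s3 : ∀ a b c d e, H a b d c e = H a b c d e
  s4 : ∀ a b c d e, H a b c e d = H a b c d e

def leaf7 (q : ℕ → ℕ → ℕ → ℕ) (u : ℕ → ℕ) (g01 g02 g12 g03 g13 g23 g04 g14 g24 g34 g05 g15 g25 g35 g45 g06 g16 g26 g36 g46 g56 : ℕ) : ℕ :=
  (Nat.add (Nat.add (q g01 (cd5 g12 g13 g14 g15 g16) (cd5 g02 g03 g04 g05 g06)) (u (cd10 g56 g46 g36 g26 g45 g35 g25 g34 g24 g23)))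
    (Nat.add (Nat.add (q g02 (cd5 g12 g23 g24 g25 g26) (cd5 g01 g03 g04 g05 g06)) (u (cd10 g56 g46 g36 g16 g45 g35 g15 g34 g14 g13)))
    (Nat.add (Nat.add (q g12 (cd5 g02 g23 g24 g25 g26) (cd5 g01 g13 g14 g15 g16)) (u (cd10 g56 g46 g36 g06 g45 g35 g05 g34 g04 g03)))
    (Nat.add (Nat.add (q g03 (cd5 g13 g23 g34 g35 g36) (cd5 g01 g02 g04 g05 g06)) (u (cd10 g56 g46 g26 g16 g45 g25 g15 g24 g14 g12)))
    (Nat.add (Nat.add (q g13 (cd5 g03 g23 g34 g35 g36) (cd5 g01 g12 g14 g15 g16)) (u (cd10 g56 g46 g26 g06 g45 g25 g05 g24 g04 g02)))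
    (Nat.add (Nat.add (q g23 (cd5 g03 g13 g34 g35 g36) (cd5 g02 g12 g24 g25 g26)) (u (cd10 g56 g46 g16 g06 g45 g15 g05 g14 g04 g01)))
    (Nat.add (Nat.add (q g04 (cd5 g14 g24 g34 g45 g46) (cd5 g01 g02 g03 g05 g06)) (u (cd10 g56 g36 g26 g16 g35 g25 g15 g23 g13 g12)))
    (Nat.add (Nat.add (q g14 (cd5 g04 g24 g34 g45 g46) (cd5 g01 g12 g13 g15 g16)) (u (cd10 g56 g36 g26 g06 g35 g25 g05 g23 g03 g02)))
    (Nat.add (Nat.add (q g24 (cd5 g04 g14 g34 g45 g46) (cd5 g02 g12 g23 g25 g26)) (u (cd10 g56 g36 g16 g06 g35 g15 g05 g13 g03 g01)))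
    (Nat.add (Nat.add (q g34 (cd5 g04 g14 g24 g45 g46) (cd5 g03 g13 g23 g35 g36)) (u (cd10 g56 g26 g16 g06 g25 g15 g05 g12 g02 g01)))
    (Nat.add (Nat.add (q g05 (cd5 g15 g25 g35 g45 g56) (cd5 g01 g02 g03 g04 g06)) (u (cd10 g46 g36 g26 g16 g34 g24 g14 g23 g13 g12)))
    (Nat.add (Nat.add (q g15 (cd5 g05 g25 g35 g45 g56) (cd5 g01 g12 g13 g14 g16)) (u (cd10 g46 g36 g26 g06 g34 g24 g04 g23 g03 g02)))
    (Nat.add (Nat.add (q g25 (cd5 g05 g15 g35 g45 g56) (cd5 g02 g12 g23 g24 g26)) (u (cd10 g46 g36 g16 g06 g34 g14 g04 g13 g03 g01)))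
    (Nat.add (Nat.add (q g35 (cd5 g05 g15 g25 g45 g56) (cd5 g03 g13 g23 g34 g36)) (u (cd10 g46 g26 g16 g06 g24 g14 g04 g12 g02 g01)))
    (Nat.add (Nat.add (q g45 (cd5 g05 g15 g25 g35 g56) (cd5 g04 g14 g24 g34 g46)) (u (cd10 g36 g26 g16 g06 g23 g13 g03 g12 g02 g01)))
    (Nat.add (Nat.add (q g06 (cd5 g16 g26 g36 g46 g56) (cd5 g01 g02 g03 g04 g05)) (u (cd10 g45 g35 g25 g15 g34 g24 g14 g23 g13 g12)))
    (Nat.add (Nat.add (q g16 (cd5 g06 g26 g36 g46 g56) (cd5 g01 g12 g13 g14 g15)) (u (cd10 g45 g35 g25 g05 g34 g24 g04 g23 g03 g02)))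
    (Nat.add (Nat.add (q g26 (cd5 g06 g16 g36 g46 g56) (cd5 g02 g12 g23 g24 g25)) (u (cd10 g45 g35 g15 g05 g34 g14 g04 g13 g03 g01)))
    (Nat.add (Nat.add (q g36 (cd5 g06 g16 g26 g46 g56) (cd5 g03 g13 g23 g34 g35)) (u (cd10 g45 g25 g15 g05 g24 g14 g04 g12 g02 g01)))
    (Nat.add (Nat.add (q g46 (cd5 g06 g16 g26 g36 g56) (cd5 g04 g14 g24 g34 g45)) (u (cd10 g35 g25 g15 g05 g23 g13 g03 g12 g02 g01))) (Nat.add (q g56 (cd5 g06 g16 g26 g36 g46) (cd5 g05 g15 g25 g35 g45)) (u (cd10 g34 g24 g14 g04 g23 g13 g03 g12 g02 g01)))))))))))))))))))))))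

def sum7 (g01 g02 g12 g03 g13 g23 g04 g14 g24 g34 g05 g15 g25 g35 g45 g06 g16 g26 g36 g46 g56 : ℕ) : ℕ := (Nat.add g01 (Nat.add g02 (Nat.add g12 (Nat.add g03 (Nat.add g13 (Nat.add g23 (Nat.add g04 (Nat.add g14 (Nat.add g24 (Nat.add g34 (Nat.add g05 (Nat.add g15 (Nat.add g25 (Nat.add g35 (Nat.add g45 (Nat.add g06 (Nat.add g16 (Nat.add g26 (Nat.add g36 (Nat.add g46 g56))))))))))))))))))))

/-- no isolated vertex -/
def ok7 (g01 g02 g12 g03 g13 g23 g04 g14 g24 g34 g05 g15 g25 g35 g45 g06 g16 g26 g36 g46 g56 : ℕ) : Bool := (and (Nat.ble 1 (Nat.add g01 (Nat.add g02 (Nat.add g03 (Nat.add g04 (Nat.add g05 g06)))))) (and (Nat.ble 1 (Nat.add g01 (Nat.add g12 (Nat.add g13 (Nat.add g14 (Nat.add g15 g16)))))) (and (Nat.ble 1 (Nat.add g02 (Nat.add g12 (Nat.add g23 (Nat.add g24 (Nat.add g25 g26)))))) (and (Nat.ble 1 (Nat.add g03 (Nat.add g13 (Nat.add g23 (Nat.add g34 (Nat.add g35 g36)))))) (and (Nat.ble 1 (Nat.add g04 (Nat.add g14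 (Nat.add g24 (Nat.add g34 (Nat.add g45 g46)))))) (and (Nat.ble 1 (Nat.add g05 (Nat.add g15 (Nat.add g25 (Nat.add g35 (Nat.add g45 g56)))))) (Nat.ble 1 (Nat.add g06 (Nat.add g16 (Nat.add g26 (Nat.add g36 (Nat.add g46 g56))))))))))))

def chk7 (q : ℕ → ℕ → ℕ → ℕ) (u : ℕ → ℕ) (D C : ℕ) (g01 g02 g12 g03 g13 g23 g04 g14 g24 g34 g05 g15 g25 g35 g45 : ℕ) : Bool :=
  B2 fun g06 => B2 fun g16 => B2 fun g26 => B2 fun g36 => B2 fun g46 => B2 fun g56 =>
  cond (ok7 g01 g02 g12 g03 g13 g23 g04 g14 g24 g34 g05 g15 g25 g35 g45 g06 g16 g26 g36 g46 g56) (Nat.ble (leaf7 q u g01 g02 g12 g03 g13 g23 g04 g14 g24 g34 g05 g15 g25 g35 g45 g06 g16 g26 g36 g46 g56) (Nat.add (Nat.mul D (sum7 g01 g02 g12 g03 g13 g23 g04 g14 g24 g34 g05 g15 g25 g35 g45 g06 g16 g26 g36 g46 g56)) C)) true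

section
variable {V : Type} (H : V → V → V → V → V → ℕ)

def Q7 (q : ℕ → ℕ → ℕ → ℕ) (r1 r2 r3 r4 r5 x y : V) : ℕ :=
  q (H r1 r2 r3 r4 r5) (cd5 (H x r2 r3 r4 r5) (H r1 x r3 r4 r5) (H r1 r2 x r4 r5) (H r1 r2 r3 x r5) (H r1 r2 r3 r4 x))
    (cd5 (H y r2 r3 r4 r5) (H r1 y r3 r4 r5) (H r1 r2 y r4 r5) (H r1 r2 r3 y r5) (H r1 r2 r3 r4 y))

def F7 (q : ℕ → ℕ → ℕ → ℕ) (u : ℕ → ℕ) (r1 r2 r3 r4 r5 x y : V) : ℕ :=
  Q7 H q r1 r2 r3 r4 r5 x y + F5 (H x y) u r1 r2 r3 r4 r5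

def L7 (q : ℕ → ℕ → ℕ → ℕ) (u : ℕ → ℕ) (a b c d e f g : V) : ℕ :=
  F7 H q u c d e f g a b +
  (F7 H q u b d e f g a c +
  (F7 H q u a d e f g b c +
  (F7 H q u b c e f g a d +
  (F7 H q u a c e f g b d +
  (F7 H q u a b e f g c d +
  (F7 H q u b c d f g a e +
  (F7 H q u a c d f g b e +
  (F7 H q u a b d f g c e +
  (F7 H q u a b c f g d e +
  (F7 H q u b c d e g a f +
  (F7 H q u a c d e g b f +
  (F7 H q u a b d e g c f +
  (F7 H q u a b c e g d f +
  (F7 H q u a b c d g e f +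
  (F7 H q u b c d e f a g +
  (F7 H q u a c d e f b g +
  (F7 H q u a b d e f c g +
  (F7 H q u a b c e f d g +
  (F7 H q u a b c d f e g +
  (F7 H q u a b c d e f g))))))))))))))))))))

def S7 (a b c d e f g : V) : ℕ :=
  H c d e f g + (H b d e f g + (H a d e f g + (H b c e f g + (H a c e f g + (H a b e f g + (H b c d f g + (H a c d f g + (H a b d f g + (H a b c f g + (H b c d e g + (H a c d e g + (H a b d e g + (H a b c e g + (H a b c d g + (H b c d e f + (H a c d e f + (H a b d e f + (H a b c e f + (H a b c d f + (H a b c d e))))))))))))))))))))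

variable {H}

theorem Sy5.lk (hH : Sy5 H) (x y : V) : Sy (H x y) where
  b := fun a b c => hH.b x y a b c
  h213 := fun a b c => hH.s3 x y a b c
  h132 := fun a b c => hH.s4 x y a b c

theorem Q7_s1 (hH : Sy5 H) {q : ℕ → ℕ → ℕ → ℕ} (hs : symQ q = true) (r1 r2 r3 r4 r5 x y : V) :
    Q7 H q r2 r1 r3 r4 r5 x y = Q7 H q r1 r2 r3 r4 r5 x y := by
  have h := (symQ_all hs (hH.b r1 r2 r3 r4 r5) (hH.b x r2 r3 r4 r5) (hH.b r1 x r3 r4 r5) (hH.b r1 r2 x r4 r5) (hH.b r1 r2 r3 x r5) (hH.b r1 r2 r3 r4 x) (hH.b y r2 r3 r4 r5) (hH.b r1 y r3 r4 r5) (hH.b r1 r2 y r4 r5) (hH.b r1 r2 r3 y r5) (hH.b r1 r2 r3 r4 y)).1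
  unfold Q7
  rw [← h]
  rw [hH.s1 r1 r2 r3 r4 r5, hH.s1 r1 x r3 r4 r5, hH.s1 x r2 r3 r4 r5, hH.s1 r1 r2 x r4 r5, hH.s1 r1 r2 r3 x r5, hH.s1 r1 r2 r3 r4 x, hH.s1 r1 y r3 r4 r5, hH.s1 y r2 r3 r4 r5, hH.s1 r1 r2 y r4 r5, hH.s1 r1 r2 r3 y r5, hH.s1 r1 r2 r3 r4 y]

theorem Q7_s2 (hH : Sy5 H) {q : ℕ → ℕ → ℕ → ℕ} (hs : symQ q = true) (r1 r2 r3 r4 r5 x y : V) :
    Q7 H q r1 r3 r2 r4 r5 x y = Q7 H q r1 r2 r3 r4 r5 x y := by
  have h := (symQ_all hs (hH.b r1 r2 r3 r4 r5) (hH.b x r2 r3 r4 r5) (hH.b r1 x r3 r4 r5) (hH.b r1 r2 x r4 r5) (hH.b r1 r2 r3 x r5) (hH.b r1 r2 r3 r4 x) (hH.b y r2 r3 r4 r5) (hH.b r1 y r3 r4 r5) (hH.b r1 r2 y r4 r5) (hH.b r1 r2 r3 y r5) (hH.b r1 r2 r3 r4 y)).2.1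
  unfold Q7
  rw [← h]
  rw [hH.s2 r1 r2 r3 r4 r5, hH.s2 x r2 r3 r4 r5, hH.s2 r1 r2 x r4 r5, hH.s2 r1 x r3 r4 r5, hH.s2 r1 r2 r3 x r5, hH.s2 r1 r2 r3 r4 x, hH.s2 y r2 r3 r4 r5, hH.s2 r1 r2 y r4 r5, hH.s2 r1 y r3 r4 r5, hH.s2 r1 r2 r3 y r5, hH.s2 r1 r2 r3 r4 y]

theorem Q7_s3 (hH : Sy5 H) {q : ℕ → ℕ → ℕ → ℕ} (hs : symQ q = true) (r1 r2 r3 r4 r5 x y : V) :
    Q7 H q r1 r2 r4 r3 r5 x y = Q7 H q r1 r2 r3 r4 r5 x y := by
  have h := (symQ_all hs (hH.b r1 r2 r3 r4 r5) (hH.b x r2 r3 r4 r5) (hH.b r1 x r3 r4 r5) (hH.b r1 r2 x r4 r5) (hH.b r1 r2 r3 x r5) (hH.b r1 r2 r3 r4 x) (hH.b y r2 r3 r4 r5) (hH.b r1 y r3 r4 r5) (hH.b r1 r2 y r4 r5) (hH.b r1 r2 r3 y r5) (hH.b r1 r2 r3 r4 y)).2.2.1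
  unfold Q7
  rw [← h]
  rw [hH.s3 r1 r2 r3 r4 r5, hH.s3 x r2 r3 r4 r5, hH.s3 r1 x r3 r4 r5, hH.s3 r1 r2 r3 x r5, hH.s3 r1 r2 x r4 r5, hH.s3 r1 r2 r3 r4 x, hH.s3 y r2 r3 r4 r5, hH.s3 r1 y r3 r4 r5, hH.s3 r1 r2 r3 y r5, hH.s3 r1 r2 y r4 r5, hH.s3 r1 r2 r3 r4 y]

theorem Q7_s4 (hH : Sy5 H) {q : ℕ → ℕ → ℕ → ℕ} (hs : symQ q = true) (r1 r2 r3 r4 r5 x y : V) :
    Q7 H q r1 r2 r3 r5 r4 x y = Q7 H q r1 r2 r3 r4 r5 x y := by
  have h := (symQ_all hs (hH.b r1 r2 r3 r4 r5) (hH.b x r2 r3 r4 r5) (hH.b r1 x r3 r4 r5) (hH.b r1 r2 x r4 r5) (hH.b r1 r2 r3 x r5) (hH.b r1 r2 r3 r4 x) (hH.b y r2 r3 r4 r5) (hH.b r1 y r3 r4 r5) (hH.b r1 r2 y r4 r5) (hH.b r1 r2 r3 y r5) (hH.b r1 r2 r3 r4 y)).2.2.2.1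
  unfold Q7
  rw [← h]
  rw [hH.s4 r1 r2 r3 r4 r5, hH.s4 x r2 r3 r4 r5, hH.s4 r1 x r3 r4 r5, hH.s4 r1 r2 x r4 r5, hH.s4 r1 r2 r3 r4 x, hH.s4 r1 r2 r3 x r5, hH.s4 y r2 r3 r4 r5, hH.s4 r1 y r3 r4 r5, hH.s4 r1 r2 y r4 r5, hH.s4 r1 r2 r3 r4 y, hH.s4 r1 r2 r3 y r5]

theorem Q7_x (hH : Sy5 H) {q : ℕ → ℕ → ℕ → ℕ} (hs : symQ q = true) (r1 r2 r3 r4 r5 x y : V) :
    Q7 H q r1 r2 r3 r4 r5 y x = Q7 H q r1 r2 r3 r4 r5 x y := by
  have h := (symQ_all hs (hH.b r1 r2 r3 r4 r5) (hH.b x r2 r3 r4 r5) (hH.b r1 x r3 r4 r5) (hH.b r1 r2 x r4 r5) (hH.b r1 r2 r3 x r5) (hH.b r1 r2 r3 r4 x) (hH.b y r2 r3 r4 r5) (hH.b r1 y r3 r4 r5) (hH.b r1 r2 y r4 r5) (hH.b r1 r2 r3 y r5) (hH.b r1 r2 r3 r4 y)).2.2.2.2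
  unfold Q7
  exact h

theorem F7_s1 (hH : Sy5 H) {q : ℕ → ℕ → ℕ → ℕ} (hs : symQ q = true) {u : ℕ → ℕ} (hu : symU u = true) (r1 r2 r3 r4 r5 x y : V) :
    F7 H q u r2 r1 r3 r4 r5 x y = F7 H q u r1 r2 r3 r4 r5 x y := by
  unfold F7
  rw [Q7_s1 hH hs r1 r2 r3 r4 r5 x y, F5_s1 (hH.lk x y) hu r1 r2 r3 r4 r5]

theorem F7_s2 (hH : Sy5 H) {q : ℕ → ℕ → ℕ → ℕ} (hs : symQ q = true) {u : ℕ → ℕ} (hu : symU u = true) (r1 r2 r3 r4 r5 x y : V) :
    F7 H q u r1 r3 r2 r4 r5 x y = F7 H q u r1 r2 r3 r4 r5 x y := by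
  unfold F7
  rw [Q7_s2 hH hs r1 r2 r3 r4 r5 x y, F5_s2 (hH.lk x y) hu r1 r2 r3 r4 r5]

theorem F7_s3 (hH : Sy5 H) {q : ℕ → ℕ → ℕ → ℕ} (hs : symQ q = true) {u : ℕ → ℕ} (hu : symU u = true) (r1 r2 r3 r4 r5 x y : V) :
    F7 H q u r1 r2 r4 r3 r5 x y = F7 H q u r1 r2 r3 r4 r5 x y := by
  unfold F7
  rw [Q7_s3 hH hs r1 r2 r3 r4 r5 x y, F5_s3 (hH.lk x y) hu r1 r2 r3 r4 r5]

theorem F7_s4 (hH : Sy5 H) {q : ℕ → ℕ → ℕ → ℕ} (hs : symQ q = true) {u : ℕ → ℕ} (hu : symU u = true) (r1 r2 r3 r4 r5 x y : V) :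
    F7 H q u r1 r2 r3 r5 r4 x y = F7 H q u r1 r2 r3 r4 r5 x y := by
  unfold F7
  rw [Q7_s4 hH hs r1 r2 r3 r4 r5 x y, F5_s4 (hH.lk x y) hu r1 r2 r3 r4 r5]

theorem F7_x (hH : Sy5 H) {q : ℕ → ℕ → ℕ → ℕ} (hs : symQ q = true) {u : ℕ → ℕ} (r1 r2 r3 r4 r5 x y : V) :
    F7 H q u r1 r2 r3 r4 r5 y x = F7 H q u r1 r2 r3 r4 r5 x y := by
  have e : H y x = H x y := by
    funext a b c
    exact hH.s1 x y a b c
  unfold F7
  rw [Q7_x hH hs r1 r2 r3 r4 r5 x y, e]

theorem L7_sw0 (hH : Sy5 H) {q : ℕ → ℕ → ℕ → ℕ} (hs : symQ q = true) {u : ℕ → ℕ} (hu : symU u = true) (a b c d e f g : V) :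
    L7 H q u b a c d e f g = L7 H q u a b c d e f g := by
  unfold L7
  rw [F7_x hH hs c d e f g a b, F7_s1 hH hs hu a b e f g c d, F7_s1 hH hs hu a b d f g c e, F7_s1 hH hs hu a b c f g d e, F7_s1 hH hs hu a b d e g c f, F7_s1 hH hs hu a b c e g d f, F7_s1 hH hs hu a b c d g e f, F7_s1 hH hs hu a b d e f c g, F7_s1 hH hs hu a b c e f d g, F7_s1 hH hs hu a b c d f e g, F7_s1 hH hs hu a b c d e f g]
  ring

theorem S7_sw0 (hH : Sy5 H) (a b c d e f g : V) : S7 H b a c d e f g = S7 H a b c d e f g := by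
  unfold S7
  rw [hH.s1 a b e f g, hH.s1 a b d f g, hH.s1 a b c f g, hH.s1 a b d e g, hH.s1 a b c e g, hH.s1 a b c d g, hH.s1 a b d e f, hH.s1 a b c e f, hH.s1 a b c d f, hH.s1 a b c d e]
  ring

theorem L7_sw1 (hH : Sy5 H) {q : ℕ → ℕ → ℕ → ℕ} (hs : symQ q = true) {u : ℕ → ℕ} (hu : symU u = true) (a b c d e f g : V) :
    L7 H q u a c b d e f g = L7 H q u a b c d e f g := by
  unfold L7
  rw [F7_x hH hs a d e f g b c, F7_s1 hH hs hu b c e f g a d, F7_s1 hH hs hu b c d f g a e, F7_s2 hH hs hu a b c f g d e, F7_s1 hH hs hu b c d e g a f, F7_s2 hH hs hu a b c e g d f, F7_s2 hH hs hu a b c d g e f, F7_s1 hH hs hu b c d e f a g, F7_s2 hH hs hu a b c e f d g, F7_s2 hH hs hu a b c d f e g, F7_s2 hH hs hu a b c d e f g]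
  ring

theorem S7_sw1 (hH : Sy5 H) (a b c d e f g : V) : S7 H a c b d e f g = S7 H a b c d e f g := by
  unfold S7
  rw [hH.s1 b c e f g, hH.s1 b c d f g, hH.s2 a b c f g, hH.s1 b c d e g, hH.s2 a b c e g, hH.s2 a b c d g, hH.s1 b c d e f, hH.s2 a b c e f, hH.s2 a b c d f, hH.s2 a b c d e]
  ring

theorem L7_sw2 (hH : Sy5 H) {q : ℕ → ℕ → ℕ → ℕ} (hs : symQ q = true) {u : ℕ → ℕ} (hu : symU u = true) (a b c d e f g : V) :
    L7 H q u a b d c e f g = L7 H q u a b c d e f g := by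
  unfold L7
  rw [F7_s1 hH hs hu c d e f g a b, F7_x hH hs a b e f g c d, F7_s2 hH hs hu b c d f g a e, F7_s2 hH hs hu a c d f g b e, F7_s2 hH hs hu b c d e g a f, F7_s2 hH hs hu a c d e g b f, F7_s3 hH hs hu a b c d g e f, F7_s2 hH hs hu b c d e f a g, F7_s2 hH hs hu a c d e f b g, F7_s3 hH hs hu a b c d f e g, F7_s3 hH hs hu a b c d e f g]
  ring

theorem S7_sw2 (hH : Sy5 H) (a b c d e f g : V) : S7 H a b d c e f g = S7 H a b c d e f g := by
  unfold S7
  rw [hH.s1 c d e f g, hH.s2 b c d f g, hH.s2 a c d f g, hH.s2 b c d e g, hH.s2 a c d e g, hH.s3 a b c d g, hH.s2 b c d e f, hH.s2 a c d e f, hH.s3 a b c d f, hH.s3 a b c d e]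
  ring

theorem L7_sw3 (hH : Sy5 H) {q : ℕ → ℕ → ℕ → ℕ} (hs : symQ q = true) {u : ℕ → ℕ} (hu : symU u = true) (a b c d e f g : V) :
    L7 H q u a b c e d f g = L7 H q u a b c d e f g := by
  unfold L7
  rw [F7_s2 hH hs hu c d e f g a b, F7_s2 hH hs hu b d e f g a c, F7_s2 hH hs hu a d e f g b c, F7_x hH hs a b c f g d e, F7_s3 hH hs hu b c d e g a f, F7_s3 hH hs hu a c d e g b f, F7_s3 hH hs hu a b d e g c f, F7_s3 hH hs hu b c d e f a g, F7_s3 hH hs hu a c d e f b g, F7_s3 hH hs hu a b d e f c g, F7_s4 hH hs hu a b c d e f g]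
  ring

theorem S7_sw3 (hH : Sy5 H) (a b c d e f g : V) : S7 H a b c e d f g = S7 H a b c d e f g := by
  unfold S7
  rw [hH.s2 c d e f g, hH.s2 b d e f g, hH.s2 a d e f g, hH.s3 b c d e g, hH.s3 a c d e g, hH.s3 a b d e g, hH.s3 b c d e f, hH.s3 a c d e f, hH.s3 a b d e f, hH.s4 a b c d e]
  ring

theorem L7_sw4 (hH : Sy5 H) {q : ℕ → ℕ → ℕ → ℕ} (hs : symQ q = true) {u : ℕ → ℕ} (hu : symU u = true) (a b c d e f g : V) :
    L7 H q u a b c d f e g = L7 H q u a b c d e f g := by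
  unfold L7
  rw [F7_s3 hH hs hu c d e f g a b, F7_s3 hH hs hu b d e f g a c, F7_s3 hH hs hu a d e f g b c, F7_s3 hH hs hu b c e f g a d, F7_s3 hH hs hu a c e f g b d, F7_s3 hH hs hu a b e f g c d, F7_x hH hs a b c d g e f, F7_s4 hH hs hu b c d e f a g, F7_s4 hH hs hu a c d e f b g, F7_s4 hH hs hu a b d e f c g, F7_s4 hH hs hu a b c e f d g]
  ring

theorem S7_sw4 (hH : Sy5 H) (a b c d e f g : V) : S7 H a b c d f e g = S7 H a b c d e f g := by
  unfold S7
  rw [hH.s3 c d e f g, hH.s3 b d e f g, hH.s3 a d e f g, hH.s3 b c e f g, hH.s3 a c e f g, hH.s3 a b e f g, hH.s4 b c d e f, hH.s4 a c d e f, hH.s4 a b d e f, hH.s4 a b c e f]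
  ring

theorem T01 (hH : Sy5 H) (q : ℕ → ℕ → ℕ → ℕ) (u : ℕ → ℕ) (a b c d e f g : V) :
    F7 H q u c d e f g a b = Nat.add (q (H c d e f g) (cd5 (H a d e f g) (H a c e f g) (H a c d f g) (H a c d e g) (H a c d e f)) (cd5 (H b d e f g) (H b c e f g) (H b c d f g) (H b c d e g) (H b c d e f))) (u (cd10 (H a b c d e) (H a b c d f) (H a b c e f) (H a b d e f) (H a b c d g) (H a b c e g) (H a b d e g) (H a b c f g) (H a b d f g) (H a b e f g))) := by
  have ecaefg : H c a e f g = H a c e f g := by rw [hH.s1 a c e f g]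
  have ecdafg : H c d a f g = H a c d f g := by rw [hH.s2 c a d f g, hH.s1 a c d f g]
  have ecdeag : H c d e a g = H a c d e g := by rw [hH.s3 c d a e g, hH.s2 c a d e g, hH.s1 a c d e g]
  have ecdefa : H c d e f a = H a c d e f := by rw [hH.s4 c d e a f, hH.s3 c d a e f, hH.s2 c a d e f, hH.s1 a c d e f]
  have ecbefg : H c b e f g = H b c e f g := by rw [hH.s1 b c e f g]
  have ecdbfg : H c d b f g = H b c d f g := by rw [hH.s2 c b d f g, hH.s1 b c d f g]
  have ecdebg : H c d e b g = H b c d e g := by rw [hH.s3 c d b e g, hH.s2 c b d e g, hH.s1 b c d e g]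
  have ecdefb : H c d e f b = H b c d e f := by rw [hH.s4 c d e b f, hH.s3 c d b e f, hH.s2 c b d e f, hH.s1 b c d e f]
  show Nat.add (q (H c d e f g) (cd5 (H a d e f g) (H c a e f g) (H c d a f g) (H c d e a g) (H c d e f a)) (cd5 (H b d e f g) (H c b e f g) (H c d b f g) (H c d e b g) (H c d e f b))) (u (cd10 (H a b c d e) (H a b c d f) (H a b c e f) (H a b d e f) (H a b c d g) (H a b c e g) (H a b d e g) (H a b c f g) (H a b d f g) (H a b e f g))) = _
  rw [ecaefg, ecdafg, ecdeag, ecdefa, ecbefg, ecdbfg, ecdebg, ecdefb]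

theorem T02 (hH : Sy5 H) (q : ℕ → ℕ → ℕ → ℕ) (u : ℕ → ℕ) (a b c d e f g : V) :
    F7 H q u b d e f g a c = Nat.add (q (H b d e f g) (cd5 (H a d e f g) (H a b e f g) (H a b d f g) (H a b d e g) (H a b d e f)) (cd5 (H c d e f g) (H b c e f g) (H b c d f g) (H b c d e g) (H b c d e f))) (u (cd10 (H a b c d e) (H a b c d f) (H a b c e f) (H a c d e f) (H a b c d g) (H a b c e g) (H a c d e g) (H a b c f g) (H a c d f g) (H a c e f g))) := by
  have ebaefg : H b a e f g = H a b e f g := by rw [hH.s1 a b e f g]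
  have ebdafg : H b d a f g = H a b d f g := by rw [hH.s2 b a d f g, hH.s1 a b d f g]
  have ebdeag : H b d e a g = H a b d e g := by rw [hH.s3 b d a e g, hH.s2 b a d e g, hH.s1 a b d e g]
  have ebdefa : H b d e f a = H a b d e f := by rw [hH.s4 b d e a f, hH.s3 b d a e f, hH.s2 b a d e f, hH.s1 a b d e f]
  have ebdcfg : H b d c f g = H b c d f g := by rw [hH.s2 b c d f g]
  have ebdecg : H b d e c g = H b c d e g := by rw [hH.s3 b d c e g, hH.s2 b c d e g]
  have ebdefc : H b d e f c = H b c d e f := by rw [hH.s4 b d e c f, hH.s3 b d c e f, hH.s2 b c d e f]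
  have eacbde : H a c b d e = H a b c d e := by rw [hH.s2 a b c d e]
  have eacbdf : H a c b d f = H a b c d f := by rw [hH.s2 a b c d f]
  have eacbef : H a c b e f = H a b c e f := by rw [hH.s2 a b c e f]
  have eacbdg : H a c b d g = H a b c d g := by rw [hH.s2 a b c d g]
  have eacbeg : H a c b e g = H a b c e g := by rw [hH.s2 a b c e g]
  have eacbfg : H a c b f g = H a b c f g := by rw [hH.s2 a b c f g]
  show Nat.add (q (H b d e f g) (cd5 (H a d e f g) (H b a e f g) (H b d a f g) (H b d e a g) (H b d e f a)) (cd5 (H c d e f g) (H b c e f g) (H b d c f g) (H b d e c g) (H b d e f c))) (u (cd10 (H a c b d e) (H a c b d f) (H a c b e f) (H a c d e f) (H a c b d g) (H a c b e g) (H a c d e g) (H a c b f g) (H a c d f g) (H a c e f g))) = _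
  rw [ebaefg, ebdafg, ebdeag, ebdefa, ebdcfg, ebdecg, ebdefc, eacbde, eacbdf, eacbef, eacbdg, eacbeg, eacbfg]

theorem T12 (hH : Sy5 H) (q : ℕ → ℕ → ℕ → ℕ) (u : ℕ → ℕ) (a b c d e f g : V) :
    F7 H q u a d e f g b c = Nat.add (q (H a d e f g) (cd5 (H b d e f g) (H a b e f g) (H a b d f g) (H a b d e g) (H a b d e f)) (cd5 (H c d e f g) (H a c e f g) (H a c d f g) (H a c d e g) (H a c d e f))) (u (cd10 (H a b c d e) (H a b c d f) (H a b c e f) (H b c d e f) (H a b c d g) (H a b c e g) (H b c d e g) (H a b c f g) (H b c d f g) (H b c e f g))) := by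
  have eadbfg : H a d b f g = H a b d f g := by rw [hH.s2 a b d f g]
  have eadebg : H a d e b g = H a b d e g := by rw [hH.s3 a d b e g, hH.s2 a b d e g]
  have eadefb : H a d e f b = H a b d e f := by rw [hH.s4 a d e b f, hH.s3 a d b e f, hH.s2 a b d e f]
  have eadcfg : H a d c f g = H a c d f g := by rw [hH.s2 a c d f g]
  have eadecg : H a d e c g = H a c d e g := by rw [hH.s3 a d c e g, hH.s2 a c d e g]
  have eadefc : H a d e f c = H a c d e f := by rw [hH.s4 a d e c f, hH.s3 a d c e f, hH.s2 a c d e f]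
  have ebcade : H b c a d e = H a b c d e := by rw [hH.s2 b a c d e, hH.s1 a b c d e]
  have ebcadf : H b c a d f = H a b c d f := by rw [hH.s2 b a c d f, hH.s1 a b c d f]
  have ebcaef : H b c a e f = H a b c e f := by rw [hH.s2 b a c e f, hH.s1 a b c e f]
  have ebcadg : H b c a d g = H a b c d g := by rw [hH.s2 b a c d g, hH.s1 a b c d g]
  have ebcaeg : H b c a e g = H a b c e g := by rw [hH.s2 b a c e g, hH.s1 a b c e g]
  have ebcafg : H b c a f g = H a b c f g := by rw [hH.s2 b a c f g, hH.s1 a b c f g]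
  show Nat.add (q (H a d e f g) (cd5 (H b d e f g) (H a b e f g) (H a d b f g) (H a d e b g) (H a d e f b)) (cd5 (H c d e f g) (H a c e f g) (H a d c f g) (H a d e c g) (H a d e f c))) (u (cd10 (H b c a d e) (H b c a d f) (H b c a e f) (H b c d e f) (H b c a d g) (H b c a e g) (H b c d e g) (H b c a f g) (H b c d f g) (H b c e f g))) = _
  rw [eadbfg, eadebg, eadefb, eadcfg, eadecg, eadefc, ebcade, ebcadf, ebcaef, ebcadg, ebcaeg, ebcafg]

theorem T03 (hH : Sy5 H) (q : ℕ → ℕ → ℕ → ℕ) (u : ℕ → ℕ) (a b c d e f g : V) :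
    F7 H q u b c e f g a d = Nat.add (q (H b c e f g) (cd5 (H a c e f g) (H a b e f g) (H a b c f g) (H a b c e g) (H a b c e f)) (cd5 (H c d e f g) (H b d e f g) (H b c d f g) (H b c d e g) (H b c d e f))) (u (cd10 (H a b c d e) (H a b c d f) (H a b d e f) (H a c d e f) (H a b c d g) (H a b d e g) (H a c d e g) (H a b d f g) (H a c d f g) (H a d e f g))) := by
  have ebaefg : H b a e f g = H a b e f g := by rw [hH.s1 a b e f g]
  have ebcafg : H b c a f g = H a b c f g := by rw [hH.s2 b a c f g, hH.s1 a b c f g]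
  have ebceag : H b c e a g = H a b c e g := by rw [hH.s3 b c a e g, hH.s2 b a c e g, hH.s1 a b c e g]
  have ebcefa : H b c e f a = H a b c e f := by rw [hH.s4 b c e a f, hH.s3 b c a e f, hH.s2 b a c e f, hH.s1 a b c e f]
  have edcefg : H d c e f g = H c d e f g := by rw [hH.s1 c d e f g]
  have ebcedg : H b c e d g = H b c d e g := by rw [hH.s3 b c d e g]
  have ebcefd : H b c e f d = H b c d e f := by rw [hH.s4 b c e d f, hH.s3 b c d e f]
  have eadbce : H a d b c e = H a b c d e := by rw [hH.s2 a b d c e, hH.s3 a b c d e]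
  have eadbcf : H a d b c f = H a b c d f := by rw [hH.s2 a b d c f, hH.s3 a b c d f]
  have eadbef : H a d b e f = H a b d e f := by rw [hH.s2 a b d e f]
  have eadcef : H a d c e f = H a c d e f := by rw [hH.s2 a c d e f]
  have eadbcg : H a d b c g = H a b c d g := by rw [hH.s2 a b d c g, hH.s3 a b c d g]
  have eadbeg : H a d b e g = H a b d e g := by rw [hH.s2 a b d e g]
  have eadceg : H a d c e g = H a c d e g := by rw [hH.s2 a c d e g]
  have eadbfg : H a d b f g = H a b d f g := by rw [hH.s2 a b d f g]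
  have eadcfg : H a d c f g = H a c d f g := by rw [hH.s2 a c d f g]
  show Nat.add (q (H b c e f g) (cd5 (H a c e f g) (H b a e f g) (H b c a f g) (H b c e a g) (H b c e f a)) (cd5 (H d c e f g) (H b d e f g) (H b c d f g) (H b c e d g) (H b c e f d))) (u (cd10 (H a d b c e) (H a d b c f) (H a d b e f) (H a d c e f) (H a d b c g) (H a d b e g) (H a d c e g) (H a d b f g) (H a d c f g) (H a d e f g))) = _
  rw [ebaefg, ebcafg, ebceag, ebcefa, edcefg, ebcedg, ebcefd, eadbce, eadbcf, eadbef, eadcef, eadbcg, eadbeg, eadceg, eadbfg, eadcfg]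

theorem T13 (hH : Sy5 H) (q : ℕ → ℕ → ℕ → ℕ) (u : ℕ → ℕ) (a b c d e f g : V) :
    F7 H q u a c e f g b d = Nat.add (q (H a c e f g) (cd5 (H b c e f g) (H a b e f g) (H a b c f g) (H a b c e g) (H a b c e f)) (cd5 (H c d e f g) (H a d e f g) (H a c d f g) (H a c d e g) (H a c d e f))) (u (cd10 (H a b c d e) (H a b c d f) (H a b d e f) (H b c d e f) (H a b c d g) (H a b d e g) (H b c d e g) (H a b d f g) (H b c d f g) (H b d e f g))) := by
  have eacbfg : H a c b f g = H a b c f g := by rw [hH.s2 a b c f g]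
  have eacebg : H a c e b g = H a b c e g := by rw [hH.s3 a c b e g, hH.s2 a b c e g]
  have eacefb : H a c e f b = H a b c e f := by rw [hH.s4 a c e b f, hH.s3 a c b e f, hH.s2 a b c e f]
  have edcefg : H d c e f g = H c d e f g := by rw [hH.s1 c d e f g]
  have eacedg : H a c e d g = H a c d e g := by rw [hH.s3 a c d e g]
  have eacefd : H a c e f d = H a c d e f := by rw [hH.s4 a c e d f, hH.s3 a c d e f]
  have ebdace : H b d a c e = H a b c d e := by rw [hH.s2 b a d c e, hH.s1 a b d c e, hH.s3 a b c d e]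
  have ebdacf : H b d a c f = H a b c d f := by rw [hH.s2 b a d c f, hH.s1 a b d c f, hH.s3 a b c d f]
  have ebdaef : H b d a e f = H a b d e f := by rw [hH.s2 b a d e f, hH.s1 a b d e f]
  have ebdcef : H b d c e f = H b c d e f := by rw [hH.s2 b c d e f]
  have ebdacg : H b d a c g = H a b c d g := by rw [hH.s2 b a d c g, hH.s1 a b d c g, hH.s3 a b c d g]
  have ebdaeg : H b d a e g = H a b d e g := by rw [hH.s2 b a d e g, hH.s1 a b d e g]
  have ebdceg : H b d c e g = H b c d e g := by rw [hH.s2 b c d e g]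
  have ebdafg : H b d a f g = H a b d f g := by rw [hH.s2 b a d f g, hH.s1 a b d f g]
  have ebdcfg : H b d c f g = H b c d f g := by rw [hH.s2 b c d f g]
  show Nat.add (q (H a c e f g) (cd5 (H b c e f g) (H a b e f g) (H a c b f g) (H a c e b g) (H a c e f b)) (cd5 (H d c e f g) (H a d e f g) (H a c d f g) (H a c e d g) (H a c e f d))) (u (cd10 (H b d a c e) (H b d a c f) (H b d a e f) (H b d c e f) (H b d a c g) (H b d a e g) (H b d c e g) (H b d a f g) (H b d c f g) (H b d e f g))) = _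
  rw [eacbfg, eacebg, eacefb, edcefg, eacedg, eacefd, ebdace, ebdacf, ebdaef, ebdcef, ebdacg, ebdaeg, ebdceg, ebdafg, ebdcfg]

theorem T23 (hH : Sy5 H) (q : ℕ → ℕ → ℕ → ℕ) (u : ℕ → ℕ) (a b c d e f g : V) :
    F7 H q u a b e f g c d = Nat.add (q (H a b e f g) (cd5 (H b c e f g) (H a c e f g) (H a b c f g) (H a b c e g) (H a b c e f)) (cd5 (H b d e f g) (H a d e f g) (H a b d f g) (H a b d e g) (H a b d e f))) (u (cd10 (H a b c d e) (H a b c d f) (H a c d e f) (H b c d e f) (H a b c d g) (H a c d e g) (H b c d e g) (H a c d f g) (H b c d f g) (H c d e f g))) := by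
  have ecbefg : H c b e f g = H b c e f g := by rw [hH.s1 b c e f g]
  have eabecg : H a b e c g = H a b c e g := by rw [hH.s3 a b c e g]
  have eabefc : H a b e f c = H a b c e f := by rw [hH.s4 a b e c f, hH.s3 a b c e f]
  have edbefg : H d b e f g = H b d e f g := by rw [hH.s1 b d e f g]
  have eabedg : H a b e d g = H a b d e g := by rw [hH.s3 a b d e g]
  have eabefd : H a b e f d = H a b d e f := by rw [hH.s4 a b e d f, hH.s3 a b d e f]
  have ecdabe : H c d a b e = H a b c d e := by rw [hH.s2 c a d b e, hH.s1 a c d b e, hH.s3 a c b d e, hH.s2 a b c d e]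
  have ecdabf : H c d a b f = H a b c d f := by rw [hH.s2 c a d b f, hH.s1 a c d b f, hH.s3 a c b d f, hH.s2 a b c d f]
  have ecdaef : H c d a e f = H a c d e f := by rw [hH.s2 c a d e f, hH.s1 a c d e f]
  have ecdbef : H c d b e f = H b c d e f := by rw [hH.s2 c b d e f, hH.s1 b c d e f]
  have ecdabg : H c d a b g = H a b c d g := by rw [hH.s2 c a d b g, hH.s1 a c d b g, hH.s3 a c b d g, hH.s2 a b c d g]
  have ecdaeg : H c d a e g = H a c d e g := by rw [hH.s2 c a d e g, hH.s1 a c d e g]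
  have ecdbeg : H c d b e g = H b c d e g := by rw [hH.s2 c b d e g, hH.s1 b c d e g]
  have ecdafg : H c d a f g = H a c d f g := by rw [hH.s2 c a d f g, hH.s1 a c d f g]
  have ecdbfg : H c d b f g = H b c d f g := by rw [hH.s2 c b d f g, hH.s1 b c d f g]
  show Nat.add (q (H a b e f g) (cd5 (H c b e f g) (H a c e f g) (H a b c f g) (H a b e c g) (H a b e f c)) (cd5 (H d b e f g) (H a d e f g) (H a b d f g) (H a b e d g) (H a b e f d))) (u (cd10 (H c d a b e) (H c d a b f) (H c d a e f) (H c d b e f) (H c d a b g) (H c d a e g) (H c d b e g) (H c d a f g) (H c d b f g) (H c d e f g))) = _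
  rw [ecbefg, eabecg, eabefc, edbefg, eabedg, eabefd, ecdabe, ecdabf, ecdaef, ecdbef, ecdabg, ecdaeg, ecdbeg, ecdafg, ecdbfg]

theorem T04 (hH : Sy5 H) (q : ℕ → ℕ → ℕ → ℕ) (u : ℕ → ℕ) (a b c d e f g : V) :
    F7 H q u b c d f g a e = Nat.add (q (H b c d f g) (cd5 (H a c d f g) (H a b d f g) (H a b c f g) (H a b c d g) (H a b c d f)) (cd5 (H c d e f g) (H b d e f g) (H b c e f g) (H b c d e g) (H b c d e f))) (u (cd10 (H a b c d e) (H a b c e f) (H a b d e f) (H a c d e f) (H a b c e g) (H a b d e g) (H a c d e g) (H a b e f g) (H a c e f g) (H a d e f g))) := by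
  have ebadfg : H b a d f g = H a b d f g := by rw [hH.s1 a b d f g]
  have ebcafg : H b c a f g = H a b c f g := by rw [hH.s2 b a c f g, hH.s1 a b c f g]
  have ebcdag : H b c d a g = H a b c d g := by rw [hH.s3 b c a d g, hH.s2 b a c d g, hH.s1 a b c d g]
  have ebcdfa : H b c d f a = H a b c d f := by rw [hH.s4 b c d a f, hH.s3 b c a d f, hH.s2 b a c d f, hH.s1 a b c d f]
  have eecdfg : H e c d f g = H c d e f g := by rw [hH.s1 c e d f g, hH.s2 c d e f g]
  have ebedfg : H b e d f g = H b d e f g := by rw [hH.s2 b d e f g]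
  have ebcdfe : H b c d f e = H b c d e f := by rw [hH.s4 b c d e f]
  have eaebcd : H a e b c d = H a b c d e := by rw [hH.s2 a b e c d, hH.s3 a b c e d, hH.s4 a b c d e]
  have eaebcf : H a e b c f = H a b c e f := by rw [hH.s2 a b e c f, hH.s3 a b c e f]
  have eaebdf : H a e b d f = H a b d e f := by rw [hH.s2 a b e d f, hH.s3 a b d e f]
  have eaecdf : H a e c d f = H a c d e f := by rw [hH.s2 a c e d f, hH.s3 a c d e f]
  have eaebcg : H a e b c g = H a b c e g := by rw [hH.s2 a b e c g, hH.s3 a b c e g]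
  have eaebdg : H a e b d g = H a b d e g := by rw [hH.s2 a b e d g, hH.s3 a b d e g]
  have eaecdg : H a e c d g = H a c d e g := by rw [hH.s2 a c e d g, hH.s3 a c d e g]
  have eaebfg : H a e b f g = H a b e f g := by rw [hH.s2 a b e f g]
  have eaecfg : H a e c f g = H a c e f g := by rw [hH.s2 a c e f g]
  have eaedfg : H a e d f g = H a d e f g := by rw [hH.s2 a d e f g]
  show Nat.add (q (H b c d f g) (cd5 (H a c d f g) (H b a d f g) (H b c a f g) (H b c d a g) (H b c d f a)) (cd5 (H e c d f g) (H b e d f g) (H b c e f g) (H b c d e g) (H b c d f e))) (u (cd10 (H a e b c d) (H a e b c f) (H a e b d f) (H a e c d f) (H a e b c g) (H a e b d g) (H a e c d g) (H a e b f g) (H a e c f g) (H a e d f g))) = _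
  rw [ebadfg, ebcafg, ebcdag, ebcdfa, eecdfg, ebedfg, ebcdfe, eaebcd, eaebcf, eaebdf, eaecdf, eaebcg, eaebdg, eaecdg, eaebfg, eaecfg, eaedfg]

theorem T14 (hH : Sy5 H) (q : ℕ → ℕ → ℕ → ℕ) (u : ℕ → ℕ) (a b c d e f g : V) :
    F7 H q u a c d f g b e = Nat.add (q (H a c d f g) (cd5 (H b c d f g) (H a b d f g) (H a b c f g) (H a b c d g) (H a b c d f)) (cd5 (H c d e f g) (H a d e f g) (H a c e f g) (H a c d e g) (H a c d e f))) (u (cd10 (H a b c d e) (H a b c e f) (H a b d e f) (H b c d e f) (H a b c e g) (H a b d e g) (H b c d e g) (H a b e f g) (H b c e f g) (H b d e f g))) := by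
  have eacbfg : H a c b f g = H a b c f g := by rw [hH.s2 a b c f g]
  have eacdbg : H a c d b g = H a b c d g := by rw [hH.s3 a c b d g, hH.s2 a b c d g]
  have eacdfb : H a c d f b = H a b c d f := by rw [hH.s4 a c d b f, hH.s3 a c b d f, hH.s2 a b c d f]
  have eecdfg : H e c d f g = H c d e f g := by rw [hH.s1 c e d f g, hH.s2 c d e f g]
  have eaedfg : H a e d f g = H a d e f g := by rw [hH.s2 a d e f g]
  have eacdfe : H a c d f e = H a c d e f := by rw [hH.s4 a c d e f]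
  have ebeacd : H b e a c d = H a b c d e := by rw [hH.s2 b a e c d, hH.s1 a b e c d, hH.s3 a b c e d, hH.s4 a b c d e]
  have ebeacf : H b e a c f = H a b c e f := by rw [hH.s2 b a e c f, hH.s1 a b e c f, hH.s3 a b c e f]
  have ebeadf : H b e a d f = H a b d e f := by rw [hH.s2 b a e d f, hH.s1 a b e d f, hH.s3 a b d e f]
  have ebecdf : H b e c d f = H b c d e f := by rw [hH.s2 b c e d f, hH.s3 b c d e f]
  have ebeacg : H b e a c g = H a b c e g := by rw [hH.s2 b a e c g, hH.s1 a b e c g, hH.s3 a b c e g]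
  have ebeadg : H b e a d g = H a b d e g := by rw [hH.s2 b a e d g, hH.s1 a b e d g, hH.s3 a b d e g]
  have ebecdg : H b e c d g = H b c d e g := by rw [hH.s2 b c e d g, hH.s3 b c d e g]
  have ebeafg : H b e a f g = H a b e f g := by rw [hH.s2 b a e f g, hH.s1 a b e f g]
  have ebecfg : H b e c f g = H b c e f g := by rw [hH.s2 b c e f g]
  have ebedfg : H b e d f g = H b d e f g := by rw [hH.s2 b d e f g]
  show Nat.add (q (H a c d f g) (cd5 (H b c d f g) (H a b d f g) (H a c b f g) (H a c d b g) (H a c d f b)) (cd5 (H e c d f g) (H a e d f g) (H a c e f g) (H a c d e g) (H a c d f e))) (u (cd10 (H b e a c d) (H b e a c f) (H b e a d f) (H b e c d f) (H b e a c g) (H b e a d g) (H b e c d g) (H b e a f g) (H b e c f g) (H b e d f g))) = _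
  rw [eacbfg, eacdbg, eacdfb, eecdfg, eaedfg, eacdfe, ebeacd, ebeacf, ebeadf, ebecdf, ebeacg, ebeadg, ebecdg, ebeafg, ebecfg, ebedfg]

theorem T24 (hH : Sy5 H) (q : ℕ → ℕ → ℕ → ℕ) (u : ℕ → ℕ) (a b c d e f g : V) :
    F7 H q u a b d f g c e = Nat.add (q (H a b d f g) (cd5 (H b c d f g) (H a c d f g) (H a b c f g) (H a b c d g) (H a b c d f)) (cd5 (H b d e f g) (H a d e f g) (H a b e f g) (H a b d e g) (H a b d e f))) (u (cd10 (H a b c d e) (H a b c e f) (H a c d e f) (H b c d e f) (H a b c e g) (H a c d e g) (H b c d e g) (H a c e f g) (H b c e f g) (H c d e f g))) := by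
  have ecbdfg : H c b d f g = H b c d f g := by rw [hH.s1 b c d f g]
  have eabdcg : H a b d c g = H a b c d g := by rw [hH.s3 a b c d g]
  have eabdfc : H a b d f c = H a b c d f := by rw [hH.s4 a b d c f, hH.s3 a b c d f]
  have eebdfg : H e b d f g = H b d e f g := by rw [hH.s1 b e d f g, hH.s2 b d e f g]
  have eaedfg : H a e d f g = H a d e f g := by rw [hH.s2 a d e f g]
  have eabdfe : H a b d f e = H a b d e f := by rw [hH.s4 a b d e f]
  have eceabd : H c e a b d = H a b c d e := by rw [hH.s2 c a e b d, hH.s1 a c e b d, hH.s3 a c b e d, hH.s2 a b c e d, hH.s4 a b c d e]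
  have eceabf : H c e a b f = H a b c e f := by rw [hH.s2 c a e b f, hH.s1 a c e b f, hH.s3 a c b e f, hH.s2 a b c e f]
  have eceadf : H c e a d f = H a c d e f := by rw [hH.s2 c a e d f, hH.s1 a c e d f, hH.s3 a c d e f]
  have ecebdf : H c e b d f = H b c d e f := by rw [hH.s2 c b e d f, hH.s1 b c e d f, hH.s3 b c d e f]
  have eceabg : H c e a b g = H a b c e g := by rw [hH.s2 c a e b g, hH.s1 a c e b g, hH.s3 a c b e g, hH.s2 a b c e g]
  have eceadg : H c e a d g = H a c d e g := by rw [hH.s2 c a e d g, hH.s1 a c e d g, hH.s3 a c d e g]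
  have ecebdg : H c e b d g = H b c d e g := by rw [hH.s2 c b e d g, hH.s1 b c e d g, hH.s3 b c d e g]
  have eceafg : H c e a f g = H a c e f g := by rw [hH.s2 c a e f g, hH.s1 a c e f g]
  have ecebfg : H c e b f g = H b c e f g := by rw [hH.s2 c b e f g, hH.s1 b c e f g]
  have ecedfg : H c e d f g = H c d e f g := by rw [hH.s2 c d e f g]
  show Nat.add (q (H a b d f g) (cd5 (H c b d f g) (H a c d f g) (H a b c f g) (H a b d c g) (H a b d f c)) (cd5 (H e b d f g) (H a e d f g) (H a b e f g) (H a b d e g) (H a b d f e))) (u (cd10 (H c e a b d) (H c e a b f) (H c e a d f) (H c e b d f) (H c e a b g) (H c e a d g) (H c e b d g) (H c e a f g) (H c e b f g) (H c e d f g))) = _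
  rw [ecbdfg, eabdcg, eabdfc, eebdfg, eaedfg, eabdfe, eceabd, eceabf, eceadf, ecebdf, eceabg, eceadg, ecebdg, eceafg, ecebfg, ecedfg]

theorem T34 (hH : Sy5 H) (q : ℕ → ℕ → ℕ → ℕ) (u : ℕ → ℕ) (a b c d e f g : V) :
    F7 H q u a b c f g d e = Nat.add (q (H a b c f g) (cd5 (H b c d f g) (H a c d f g) (H a b d f g) (H a b c d g) (H a b c d f)) (cd5 (H b c e f g) (H a c e f g) (H a b e f g) (H a b c e g) (H a b c e f))) (u (cd10 (H a b c d e) (H a b d e f) (H a c d e f) (H b c d e f) (H a b d e g) (H a c d e g) (H b c d e g) (H a d e f g) (H b d e f g) (H c d e f g))) := by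
  have edbcfg : H d b c f g = H b c d f g := by rw [hH.s1 b d c f g, hH.s2 b c d f g]
  have eadcfg : H a d c f g = H a c d f g := by rw [hH.s2 a c d f g]
  have eabcfd : H a b c f d = H a b c d f := by rw [hH.s4 a b c d f]
  have eebcfg : H e b c f g = H b c e f g := by rw [hH.s1 b e c f g, hH.s2 b c e f g]
  have eaecfg : H a e c f g = H a c e f g := by rw [hH.s2 a c e f g]
  have eabcfe : H a b c f e = H a b c e f := by rw [hH.s4 a b c e f]
  have edeabc : H d e a b c = H a b c d e := by rw [hH.s2 d a e b c, hH.s1 a d e b c, hH.s3 a d b e c, hH.s2 a b d e c, hH.s4 a b d c e, hH.s3 a b c d e]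
  have edeabf : H d e a b f = H a b d e f := by rw [hH.s2 d a e b f, hH.s1 a d e b f, hH.s3 a d b e f, hH.s2 a b d e f]
  have edeacf : H d e a c f = H a c d e f := by rw [hH.s2 d a e c f, hH.s1 a d e c f, hH.s3 a d c e f, hH.s2 a c d e f]
  have edebcf : H d e b c f = H b c d e f := by rw [hH.s2 d b e c f, hH.s1 b d e c f, hH.s3 b d c e f, hH.s2 b c d e f]
  have edeabg : H d e a b g = H a b d e g := by rw [hH.s2 d a e b g, hH.s1 a d e b g, hH.s3 a d b e g, hH.s2 a b d e g]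
  have edeacg : H d e a c g = H a c d e g := by rw [hH.s2 d a e c g, hH.s1 a d e c g, hH.s3 a d c e g, hH.s2 a c d e g]
  have edebcg : H d e b c g = H b c d e g := by rw [hH.s2 d b e c g, hH.s1 b d e c g, hH.s3 b d c e g, hH.s2 b c d e g]
  have edeafg : H d e a f g = H a d e f g := by rw [hH.s2 d a e f g, hH.s1 a d e f g]
  have edebfg : H d e b f g = H b d e f g := by rw [hH.s2 d b e f g, hH.s1 b d e f g]
  have edecfg : H d e c f g = H c d e f g := by rw [hH.s2 d c e f g, hH.s1 c d e f g]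
  show Nat.add (q (H a b c f g) (cd5 (H d b c f g) (H a d c f g) (H a b d f g) (H a b c d g) (H a b c f d)) (cd5 (H e b c f g) (H a e c f g) (H a b e f g) (H a b c e g) (H a b c f e))) (u (cd10 (H d e a b c) (H d e a b f) (H d e a c f) (H d e b c f) (H d e a b g) (H d e a c g) (H d e b c g) (H d e a f g) (H d e b f g) (H d e c f g))) = _
  rw [edbcfg, eadcfg, eabcfd, eebcfg, eaecfg, eabcfe, edeabc, edeabf, edeacf, edebcf, edeabg, edeacg, edebcg, edeafg, edebfg, edecfg]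

theorem T05 (hH : Sy5 H) (q : ℕ → ℕ → ℕ → ℕ) (u : ℕ → ℕ) (a b c d e f g : V) :
    F7 H q u b c d e g a f = Nat.add (q (H b c d e g) (cd5 (H a c d e g) (H a b d e g) (H a b c e g) (H a b c d g) (H a b c d e)) (cd5 (H c d e f g) (H b d e f g) (H b c e f g) (H b c d f g) (H b c d e f))) (u (cd10 (H a b c d f) (H a b c e f) (H a b d e f) (H a c d e f) (H a b c f g) (H a b d f g) (H a c d f g) (H a b e f g) (H a c e f g) (H a d e f g))) := by
  have ebadeg : H b a d e g = H a b d e g := by rw [hH.s1 a b d e g]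
  have ebcaeg : H b c a e g = H a b c e g := by rw [hH.s2 b a c e g, hH.s1 a b c e g]
  have ebcdag : H b c d a g = H a b c d g := by rw [hH.s3 b c a d g, hH.s2 b a c d g, hH.s1 a b c d g]
  have ebcdea : H b c d e a = H a b c d e := by rw [hH.s4 b c d a e, hH.s3 b c a d e, hH.s2 b a c d e, hH.s1 a b c d e]
  have efcdeg : H f c d e g = H c d e f g := by rw [hH.s1 c f d e g, hH.s2 c d f e g, hH.s3 c d e f g]
  have ebfdeg : H b f d e g = H b d e f g := by rw [hH.s2 b d f e g, hH.s3 b d e f g]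
  have ebcfeg : H b c f e g = H b c e f g := by rw [hH.s3 b c e f g]
  have eafbcd : H a f b c d = H a b c d f := by rw [hH.s2 a b f c d, hH.s3 a b c f d, hH.s4 a b c d f]
  have eafbce : H a f b c e = H a b c e f := by rw [hH.s2 a b f c e, hH.s3 a b c f e, hH.s4 a b c e f]
  have eafbde : H a f b d e = H a b d e f := by rw [hH.s2 a b f d e, hH.s3 a b d f e, hH.s4 a b d e f]
  have eafcde : H a f c d e = H a c d e f := by rw [hH.s2 a c f d e, hH.s3 a c d f e, hH.s4 a c d e f]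
  have eafbcg : H a f b c g = H a b c f g := by rw [hH.s2 a b f c g, hH.s3 a b c f g]
  have eafbdg : H a f b d g = H a b d f g := by rw [hH.s2 a b f d g, hH.s3 a b d f g]
  have eafcdg : H a f c d g = H a c d f g := by rw [hH.s2 a c f d g, hH.s3 a c d f g]
  have eafbeg : H a f b e g = H a b e f g := by rw [hH.s2 a b f e g, hH.s3 a b e f g]
  have eafceg : H a f c e g = H a c e f g := by rw [hH.s2 a c f e g, hH.s3 a c e f g]
  have eafdeg : H a f d e g = H a d e f g := by rw [hH.s2 a d f e g, hH.s3 a d e f g]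
  show Nat.add (q (H b c d e g) (cd5 (H a c d e g) (H b a d e g) (H b c a e g) (H b c d a g) (H b c d e a)) (cd5 (H f c d e g) (H b f d e g) (H b c f e g) (H b c d f g) (H b c d e f))) (u (cd10 (H a f b c d) (H a f b c e) (H a f b d e) (H a f c d e) (H a f b c g) (H a f b d g) (H a f c d g) (H a f b e g) (H a f c e g) (H a f d e g))) = _
  rw [ebadeg, ebcaeg, ebcdag, ebcdea, efcdeg, ebfdeg, ebcfeg, eafbcd, eafbce, eafbde, eafcde, eafbcg, eafbdg, eafcdg, eafbeg, eafceg, eafdeg]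

theorem T15 (hH : Sy5 H) (q : ℕ → ℕ → ℕ → ℕ) (u : ℕ → ℕ) (a b c d e f g : V) :
    F7 H q u a c d e g b f = Nat.add (q (H a c d e g) (cd5 (H b c d e g) (H a b d e g) (H a b c e g) (H a b c d g) (H a b c d e)) (cd5 (H c d e f g) (H a d e f g) (H a c e f g) (H a c d f g) (H a c d e f))) (u (cd10 (H a b c d f) (H a b c e f) (H a b d e f) (H b c d e f) (H a b c f g) (H a b d f g) (H b c d f g) (H a b e f g) (H b c e f g) (H b d e f g))) := by
  have eacbeg : H a c b e g = H a b c e g := by rw [hH.s2 a b c e g]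
  have eacdbg : H a c d b g = H a b c d g := by rw [hH.s3 a c b d g, hH.s2 a b c d g]
  have eacdeb : H a c d e b = H a b c d e := by rw [hH.s4 a c d b e, hH.s3 a c b d e, hH.s2 a b c d e]
  have efcdeg : H f c d e g = H c d e f g := by rw [hH.s1 c f d e g, hH.s2 c d f e g, hH.s3 c d e f g]
  have eafdeg : H a f d e g = H a d e f g := by rw [hH.s2 a d f e g, hH.s3 a d e f g]
  have eacfeg : H a c f e g = H a c e f g := by rw [hH.s3 a c e f g]
  have ebfacd : H b f a c d = H a b c d f := by rw [hH.s2 b a f c d, hH.s1 a b f c d, hH.s3 a b c f d, hH.s4 a b c d f]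
  have ebface : H b f a c e = H a b c e f := by rw [hH.s2 b a f c e, hH.s1 a b f c e, hH.s3 a b c f e, hH.s4 a b c e f]
  have ebfade : H b f a d e = H a b d e f := by rw [hH.s2 b a f d e, hH.s1 a b f d e, hH.s3 a b d f e, hH.s4 a b d e f]
  have ebfcde : H b f c d e = H b c d e f := by rw [hH.s2 b c f d e, hH.s3 b c d f e, hH.s4 b c d e f]
  have ebfacg : H b f a c g = H a b c f g := by rw [hH.s2 b a f c g, hH.s1 a b f c g, hH.s3 a b c f g]
  have ebfadg : H b f a d g = H a b d f g := by rw [hH.s2 b a f d g, hH.s1 a b f d g, hH.s3 a b d f g]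
  have ebfcdg : H b f c d g = H b c d f g := by rw [hH.s2 b c f d g, hH.s3 b c d f g]
  have ebfaeg : H b f a e g = H a b e f g := by rw [hH.s2 b a f e g, hH.s1 a b f e g, hH.s3 a b e f g]
  have ebfceg : H b f c e g = H b c e f g := by rw [hH.s2 b c f e g, hH.s3 b c e f g]
  have ebfdeg : H b f d e g = H b d e f g := by rw [hH.s2 b d f e g, hH.s3 b d e f g]
  show Nat.add (q (H a c d e g) (cd5 (H b c d e g) (H a b d e g) (H a c b e g) (H a c d b g) (H a c d e b)) (cd5 (H f c d e g) (H a f d e g) (H a c f e g) (H a c d f g) (H a c d e f))) (u (cd10 (H b f a c d) (H b f a c e) (H b f a d e) (H b f c d e) (H b f a c g) (H b f a d g) (H b f c d g) (H b f a e g) (H b f c e g) (H b f d e g))) = _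
  rw [eacbeg, eacdbg, eacdeb, efcdeg, eafdeg, eacfeg, ebfacd, ebface, ebfade, ebfcde, ebfacg, ebfadg, ebfcdg, ebfaeg, ebfceg, ebfdeg]

theorem T25 (hH : Sy5 H) (q : ℕ → ℕ → ℕ → ℕ) (u : ℕ → ℕ) (a b c d e f g : V) :
    F7 H q u a b d e g c f = Nat.add (q (H a b d e g) (cd5 (H b c d e g) (H a c d e g) (H a b c e g) (H a b c d g) (H a b c d e)) (cd5 (H b d e f g) (H a d e f g) (H a b e f g) (H a b d f g) (H a b d e f))) (u (cd10 (H a b c d f) (H a b c e f) (H a c d e f) (H b c d e f) (H a b c f g) (H a c d f g) (H b c d f g) (H a c e f g) (H b c e f g) (H c d e f g))) := by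
  have ecbdeg : H c b d e g = H b c d e g := by rw [hH.s1 b c d e g]
  have eabdcg : H a b d c g = H a b c d g := by rw [hH.s3 a b c d g]
  have eabdec : H a b d e c = H a b c d e := by rw [hH.s4 a b d c e, hH.s3 a b c d e]
  have efbdeg : H f b d e g = H b d e f g := by rw [hH.s1 b f d e g, hH.s2 b d f e g, hH.s3 b d e f g]
  have eafdeg : H a f d e g = H a d e f g := by rw [hH.s2 a d f e g, hH.s3 a d e f g]
  have eabfeg : H a b f e g = H a b e f g := by rw [hH.s3 a b e f g]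
  have ecfabd : H c f a b d = H a b c d f := by rw [hH.s2 c a f b d, hH.s1 a c f b d, hH.s3 a c b f d, hH.s2 a b c f d, hH.s4 a b c d f]
  have ecfabe : H c f a b e = H a b c e f := by rw [hH.s2 c a f b e, hH.s1 a c f b e, hH.s3 a c b f e, hH.s2 a b c f e, hH.s4 a b c e f]
  have ecfade : H c f a d e = H a c d e f := by rw [hH.s2 c a f d e, hH.s1 a c f d e, hH.s3 a c d f e, hH.s4 a c d e f]
  have ecfbde : H c f b d e = H b c d e f := by rw [hH.s2 c b f d e, hH.s1 b c f d e, hH.s3 b c d f e, hH.s4 b c d e f]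
  have ecfabg : H c f a b g = H a b c f g := by rw [hH.s2 c a f b g, hH.s1 a c f b g, hH.s3 a c b f g, hH.s2 a b c f g]
  have ecfadg : H c f a d g = H a c d f g := by rw [hH.s2 c a f d g, hH.s1 a c f d g, hH.s3 a c d f g]
  have ecfbdg : H c f b d g = H b c d f g := by rw [hH.s2 c b f d g, hH.s1 b c f d g, hH.s3 b c d f g]
  have ecfaeg : H c f a e g = H a c e f g := by rw [hH.s2 c a f e g, hH.s1 a c f e g, hH.s3 a c e f g]
  have ecfbeg : H c f b e g = H b c e f g := by rw [hH.s2 c b f e g, hH.s1 b c f e g, hH.s3 b c e f g]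
  have ecfdeg : H c f d e g = H c d e f g := by rw [hH.s2 c d f e g, hH.s3 c d e f g]
  show Nat.add (q (H a b d e g) (cd5 (H c b d e g) (H a c d e g) (H a b c e g) (H a b d c g) (H a b d e c)) (cd5 (H f b d e g) (H a f d e g) (H a b f e g) (H a b d f g) (H a b d e f))) (u (cd10 (H c f a b d) (H c f a b e) (H c f a d e) (H c f b d e) (H c f a b g) (H c f a d g) (H c f b d g) (H c f a e g) (H c f b e g) (H c f d e g))) = _
  rw [ecbdeg, eabdcg, eabdec, efbdeg, eafdeg, eabfeg, ecfabd, ecfabe, ecfade, ecfbde, ecfabg, ecfadg, ecfbdg, ecfaeg, ecfbeg, ecfdeg]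

theorem T35 (hH : Sy5 H) (q : ℕ → ℕ → ℕ → ℕ) (u : ℕ → ℕ) (a b c d e f g : V) :
    F7 H q u a b c e g d f = Nat.add (q (H a b c e g) (cd5 (H b c d e g) (H a c d e g) (H a b d e g) (H a b c d g) (H a b c d e)) (cd5 (H b c e f g) (H a c e f g) (H a b e f g) (H a b c f g) (H a b c e f))) (u (cd10 (H a b c d f) (H a b d e f) (H a c d e f) (H b c d e f) (H a b d f g) (H a c d f g) (H b c d f g) (H a d e f g) (H b d e f g) (H c d e f g))) := by
  have edbceg : H d b c e g = H b c d e g := by rw [hH.s1 b d c e g, hH.s2 b c d e g]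
  have eadceg : H a d c e g = H a c d e g := by rw [hH.s2 a c d e g]
  have eabced : H a b c e d = H a b c d e := by rw [hH.s4 a b c d e]
  have efbceg : H f b c e g = H b c e f g := by rw [hH.s1 b f c e g, hH.s2 b c f e g, hH.s3 b c e f g]
  have eafceg : H a f c e g = H a c e f g := by rw [hH.s2 a c f e g, hH.s3 a c e f g]
  have eabfeg : H a b f e g = H a b e f g := by rw [hH.s3 a b e f g]
  have edfabc : H d f a b c = H a b c d f := by rw [hH.s2 d a f b c, hH.s1 a d f b c, hH.s3 a d b f c, hH.s2 a b d f c, hH.s4 a b d c f, hH.s3 a b c d f]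
  have edfabe : H d f a b e = H a b d e f := by rw [hH.s2 d a f b e, hH.s1 a d f b e, hH.s3 a d b f e, hH.s2 a b d f e, hH.s4 a b d e f]
  have edface : H d f a c e = H a c d e f := by rw [hH.s2 d a f c e, hH.s1 a d f c e, hH.s3 a d c f e, hH.s2 a c d f e, hH.s4 a c d e f]
  have edfbce : H d f b c e = H b c d e f := by rw [hH.s2 d b f c e, hH.s1 b d f c e, hH.s3 b d c f e, hH.s2 b c d f e, hH.s4 b c d e f]
  have edfabg : H d f a b g = H a b d f g := by rw [hH.s2 d a f b g, hH.s1 a d f b g, hH.s3 a d b f g, hH.s2 a b d f g]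
  have edfacg : H d f a c g = H a c d f g := by rw [hH.s2 d a f c g, hH.s1 a d f c g, hH.s3 a d c f g, hH.s2 a c d f g]
  have edfbcg : H d f b c g = H b c d f g := by rw [hH.s2 d b f c g, hH.s1 b d f c g, hH.s3 b d c f g, hH.s2 b c d f g]
  have edfaeg : H d f a e g = H a d e f g := by rw [hH.s2 d a f e g, hH.s1 a d f e g, hH.s3 a d e f g]
  have edfbeg : H d f b e g = H b d e f g := by rw [hH.s2 d b f e g, hH.s1 b d f e g, hH.s3 b d e f g]
  have edfceg : H d f c e g = H c d e f g := by rw [hH.s2 d c f e g, hH.s1 c d f e g, hH.s3 c d e f g]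
  show Nat.add (q (H a b c e g) (cd5 (H d b c e g) (H a d c e g) (H a b d e g) (H a b c d g) (H a b c e d)) (cd5 (H f b c e g) (H a f c e g) (H a b f e g) (H a b c f g) (H a b c e f))) (u (cd10 (H d f a b c) (H d f a b e) (H d f a c e) (H d f b c e) (H d f a b g) (H d f a c g) (H d f b c g) (H d f a e g) (H d f b e g) (H d f c e g))) = _
  rw [edbceg, eadceg, eabced, efbceg, eafceg, eabfeg, edfabc, edfabe, edface, edfbce, edfabg, edfacg, edfbcg, edfaeg, edfbeg, edfceg]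

theorem T45 (hH : Sy5 H) (q : ℕ → ℕ → ℕ → ℕ) (u : ℕ → ℕ) (a b c d e f g : V) :
    F7 H q u a b c d g e f = Nat.add (q (H a b c d g) (cd5 (H b c d e g) (H a c d e g) (H a b d e g) (H a b c e g) (H a b c d e)) (cd5 (H b c d f g) (H a c d f g) (H a b d f g) (H a b c f g) (H a b c d f))) (u (cd10 (H a b c e f) (H a b d e f) (H a c d e f) (H b c d e f) (H a b e f g) (H a c e f g) (H b c e f g) (H a d e f g) (H b d e f g) (H c d e f g))) := by
  have eebcdg : H e b c d g = H b c d e g := by rw [hH.s1 b e c d g, hH.s2 b c e d g, hH.s3 b c d e g]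
  have eaecdg : H a e c d g = H a c d e g := by rw [hH.s2 a c e d g, hH.s3 a c d e g]
  have eabedg : H a b e d g = H a b d e g := by rw [hH.s3 a b d e g]
  have efbcdg : H f b c d g = H b c d f g := by rw [hH.s1 b f c d g, hH.s2 b c f d g, hH.s3 b c d f g]
  have eafcdg : H a f c d g = H a c d f g := by rw [hH.s2 a c f d g, hH.s3 a c d f g]
  have eabfdg : H a b f d g = H a b d f g := by rw [hH.s3 a b d f g]
  have eefabc : H e f a b c = H a b c e f := by rw [hH.s2 e a f b c, hH.s1 a e f b c, hH.s3 a e b f c, hH.s2 a b e f c, hH.s4 a b e c f, hH.s3 a b c e f]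
  have eefabd : H e f a b d = H a b d e f := by rw [hH.s2 e a f b d, hH.s1 a e f b d, hH.s3 a e b f d, hH.s2 a b e f d, hH.s4 a b e d f, hH.s3 a b d e f]
  have eefacd : H e f a c d = H a c d e f := by rw [hH.s2 e a f c d, hH.s1 a e f c d, hH.s3 a e c f d, hH.s2 a c e f d, hH.s4 a c e d f, hH.s3 a c d e f]
  have eefbcd : H e f b c d = H b c d e f := by rw [hH.s2 e b f c d, hH.s1 b e f c d, hH.s3 b e c f d, hH.s2 b c e f d, hH.s4 b c e d f, hH.s3 b c d e f]
  have eefabg : H e f a b g = H a b e f g := by rw [hH.s2 e a f b g, hH.s1 a e f b g, hH.s3 a e b f g, hH.s2 a b e f g]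
  have eefacg : H e f a c g = H a c e f g := by rw [hH.s2 e a f c g, hH.s1 a e f c g, hH.s3 a e c f g, hH.s2 a c e f g]
  have eefbcg : H e f b c g = H b c e f g := by rw [hH.s2 e b f c g, hH.s1 b e f c g, hH.s3 b e c f g, hH.s2 b c e f g]
  have eefadg : H e f a d g = H a d e f g := by rw [hH.s2 e a f d g, hH.s1 a e f d g, hH.s3 a e d f g, hH.s2 a d e f g]
  have eefbdg : H e f b d g = H b d e f g := by rw [hH.s2 e b f d g, hH.s1 b e f d g, hH.s3 b e d f g, hH.s2 b d e f g]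
  have eefcdg : H e f c d g = H c d e f g := by rw [hH.s2 e c f d g, hH.s1 c e f d g, hH.s3 c e d f g, hH.s2 c d e f g]
  show Nat.add (q (H a b c d g) (cd5 (H e b c d g) (H a e c d g) (H a b e d g) (H a b c e g) (H a b c d e)) (cd5 (H f b c d g) (H a f c d g) (H a b f d g) (H a b c f g) (H a b c d f))) (u (cd10 (H e f a b c) (H e f a b d) (H e f a c d) (H e f b c d) (H e f a b g) (H e f a c g) (H e f b c g) (H e f a d g) (H e f b d g) (H e f c d g))) = _
  rw [eebcdg, eaecdg, eabedg, efbcdg, eafcdg, eabfdg, eefabc, eefabd, eefacd, eefbcd, eefabg, eefacg, eefbcg, eefadg, eefbdg, eefcdg]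

theorem T06 (hH : Sy5 H) (q : ℕ → ℕ → ℕ → ℕ) (u : ℕ → ℕ) (a b c d e f g : V) :
    F7 H q u b c d e f a g = Nat.add (q (H b c d e f) (cd5 (H a c d e f) (H a b d e f) (H a b c e f) (H a b c d f) (H a b c d e)) (cd5 (H c d e f g) (H b d e f g) (H b c e f g) (H b c d f g) (H b c d e g))) (u (cd10 (H a b c d g) (H a b c e g) (H a b d e g) (H a c d e g) (H a b c f g) (H a b d f g) (H a c d f g) (H a b e f g) (H a c e f g) (H a d e f g))) := by
  have ebadef : H b a d e f = H a b d e f := by rw [hH.s1 a b d e f]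
  have ebcaef : H b c a e f = H a b c e f := by rw [hH.s2 b a c e f, hH.s1 a b c e f]
  have ebcdaf : H b c d a f = H a b c d f := by rw [hH.s3 b c a d f, hH.s2 b a c d f, hH.s1 a b c d f]
  have ebcdea : H b c d e a = H a b c d e := by rw [hH.s4 b c d a e, hH.s3 b c a d e, hH.s2 b a c d e, hH.s1 a b c d e]
  have egcdef : H g c d e f = H c d e f g := by rw [hH.s1 c g d e f, hH.s2 c d g e f, hH.s3 c d e g f, hH.s4 c d e f g]
  have ebgdef : H b g d e f = H b d e f g := by rw [hH.s2 b d g e f, hH.s3 b d e g f, hH.s4 b d e f g]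
  have ebcgef : H b c g e f = H b c e f g := by rw [hH.s3 b c e g f, hH.s4 b c e f g]
  have ebcdgf : H b c d g f = H b c d f g := by rw [hH.s4 b c d f g]
  have eagbcd : H a g b c d = H a b c d g := by rw [hH.s2 a b g c d, hH.s3 a b c g d, hH.s4 a b c d g]
  have eagbce : H a g b c e = H a b c e g := by rw [hH.s2 a b g c e, hH.s3 a b c g e, hH.s4 a b c e g]
  have eagbde : H a g b d e = H a b d e g := by rw [hH.s2 a b g d e, hH.s3 a b d g e, hH.s4 a b d e g]
  have eagcde : H a g c d e = H a c d e g := by rw [hH.s2 a c g d e, hH.s3 a c d g e, hH.s4 a c d e g]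
  have eagbcf : H a g b c f = H a b c f g := by rw [hH.s2 a b g c f, hH.s3 a b c g f, hH.s4 a b c f g]
  have eagbdf : H a g b d f = H a b d f g := by rw [hH.s2 a b g d f, hH.s3 a b d g f, hH.s4 a b d f g]
  have eagcdf : H a g c d f = H a c d f g := by rw [hH.s2 a c g d f, hH.s3 a c d g f, hH.s4 a c d f g]
  have eagbef : H a g b e f = H a b e f g := by rw [hH.s2 a b g e f, hH.s3 a b e g f, hH.s4 a b e f g]
  have eagcef : H a g c e f = H a c e f g := by rw [hH.s2 a c g e f, hH.s3 a c e g f, hH.s4 a c e f g]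
  have eagdef : H a g d e f = H a d e f g := by rw [hH.s2 a d g e f, hH.s3 a d e g f, hH.s4 a d e f g]
  show Nat.add (q (H b c d e f) (cd5 (H a c d e f) (H b a d e f) (H b c a e f) (H b c d a f) (H b c d e a)) (cd5 (H g c d e f) (H b g d e f) (H b c g e f) (H b c d g f) (H b c d e g))) (u (cd10 (H a g b c d) (H a g b c e) (H a g b d e) (H a g c d e) (H a g b c f) (H a g b d f) (H a g c d f) (H a g b e f) (H a g c e f) (H a g d e f))) = _
  rw [ebadef, ebcaef, ebcdaf, ebcdea, egcdef, ebgdef, ebcgef, ebcdgf, eagbcd, eagbce, eagbde, eagcde, eagbcf, eagbdf, eagcdf, eagbef, eagcef, eagdef]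

theorem T16 (hH : Sy5 H) (q : ℕ → ℕ → ℕ → ℕ) (u : ℕ → ℕ) (a b c d e f g : V) :
    F7 H q u a c d e f b g = Nat.add (q (H a c d e f) (cd5 (H b c d e f) (H a b d e f) (H a b c e f) (H a b c d f) (H a b c d e)) (cd5 (H c d e f g) (H a d e f g) (H a c e f g) (H a c d f g) (H a c d e g))) (u (cd10 (H a b c d g) (H a b c e g) (H a b d e g) (H b c d e g) (H a b c f g) (H a b d f g) (H b c d f g) (H a b e f g) (H b c e f g) (H b d e f g))) := by
  have eacbef : H a c b e f = H a b c e f := by rw [hH.s2 a b c e f]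
  have eacdbf : H a c d b f = H a b c d f := by rw [hH.s3 a c b d f, hH.s2 a b c d f]
  have eacdeb : H a c d e b = H a b c d e := by rw [hH.s4 a c d b e, hH.s3 a c b d e, hH.s2 a b c d e]
  have egcdef : H g c d e f = H c d e f g := by rw [hH.s1 c g d e f, hH.s2 c d g e f, hH.s3 c d e g f, hH.s4 c d e f g]
  have eagdef : H a g d e f = H a d e f g := by rw [hH.s2 a d g e f, hH.s3 a d e g f, hH.s4 a d e f g]
  have eacgef : H a c g e f = H a c e f g := by rw [hH.s3 a c e g f, hH.s4 a c e f g]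
  have eacdgf : H a c d g f = H a c d f g := by rw [hH.s4 a c d f g]
  have ebgacd : H b g a c d = H a b c d g := by rw [hH.s2 b a g c d, hH.s1 a b g c d, hH.s3 a b c g d, hH.s4 a b c d g]
  have ebgace : H b g a c e = H a b c e g := by rw [hH.s2 b a g c e, hH.s1 a b g c e, hH.s3 a b c g e, hH.s4 a b c e g]
  have ebgade : H b g a d e = H a b d e g := by rw [hH.s2 b a g d e, hH.s1 a b g d e, hH.s3 a b d g e, hH.s4 a b d e g]
  have ebgcde : H b g c d e = H b c d e g := by rw [hH.s2 b c g d e, hH.s3 b c d g e, hH.s4 b c d e g]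
  have ebgacf : H b g a c f = H a b c f g := by rw [hH.s2 b a g c f, hH.s1 a b g c f, hH.s3 a b c g f, hH.s4 a b c f g]
  have ebgadf : H b g a d f = H a b d f g := by rw [hH.s2 b a g d f, hH.s1 a b g d f, hH.s3 a b d g f, hH.s4 a b d f g]
  have ebgcdf : H b g c d f = H b c d f g := by rw [hH.s2 b c g d f, hH.s3 b c d g f, hH.s4 b c d f g]
  have ebgaef : H b g a e f = H a b e f g := by rw [hH.s2 b a g e f, hH.s1 a b g e f, hH.s3 a b e g f, hH.s4 a b e f g]
  have ebgcef : H b g c e f = H b c e f g := by rw [hH.s2 b c g e f, hH.s3 b c e g f, hH.s4 b c e f g]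
  have ebgdef : H b g d e f = H b d e f g := by rw [hH.s2 b d g e f, hH.s3 b d e g f, hH.s4 b d e f g]
  show Nat.add (q (H a c d e f) (cd5 (H b c d e f) (H a b d e f) (H a c b e f) (H a c d b f) (H a c d e b)) (cd5 (H g c d e f) (H a g d e f) (H a c g e f) (H a c d g f) (H a c d e g))) (u (cd10 (H b g a c d) (H b g a c e) (H b g a d e) (H b g c d e) (H b g a c f) (H b g a d f) (H b g c d f) (H b g a e f) (H b g c e f) (H b g d e f))) = _
  rw [eacbef, eacdbf, eacdeb, egcdef, eagdef, eacgef, eacdgf, ebgacd, ebgace, ebgade, ebgcde, ebgacf, ebgadf, ebgcdf, ebgaef, ebgcef, ebgdef]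

theorem T26 (hH : Sy5 H) (q : ℕ → ℕ → ℕ → ℕ) (u : ℕ → ℕ) (a b c d e f g : V) :
    F7 H q u a b d e f c g = Nat.add (q (H a b d e f) (cd5 (H b c d e f) (H a c d e f) (H a b c e f) (H a b c d f) (H a b c d e)) (cd5 (H b d e f g) (H a d e f g) (H a b e f g) (H a b d f g) (H a b d e g))) (u (cd10 (H a b c d g) (H a b c e g) (H a c d e g) (H b c d e g) (H a b c f g) (H a c d f g) (H b c d f g) (H a c e f g) (H b c e f g) (H c d e f g))) := by
  have ecbdef : H c b d e f = H b c d e f := by rw [hH.s1 b c d e f]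
  have eabdcf : H a b d c f = H a b c d f := by rw [hH.s3 a b c d f]
  have eabdec : H a b d e c = H a b c d e := by rw [hH.s4 a b d c e, hH.s3 a b c d e]
  have egbdef : H g b d e f = H b d e f g := by rw [hH.s1 b g d e f, hH.s2 b d g e f, hH.s3 b d e g f, hH.s4 b d e f g]
  have eagdef : H a g d e f = H a d e f g := by rw [hH.s2 a d g e f, hH.s3 a d e g f, hH.s4 a d e f g]
  have eabgef : H a b g e f = H a b e f g := by rw [hH.s3 a b e g f, hH.s4 a b e f g]
  have eabdgf : H a b d g f = H a b d f g := by rw [hH.s4 a b d f g]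
  have ecgabd : H c g a b d = H a b c d g := by rw [hH.s2 c a g b d, hH.s1 a c g b d, hH.s3 a c b g d, hH.s2 a b c g d, hH.s4 a b c d g]
  have ecgabe : H c g a b e = H a b c e g := by rw [hH.s2 c a g b e, hH.s1 a c g b e, hH.s3 a c b g e, hH.s2 a b c g e, hH.s4 a b c e g]
  have ecgade : H c g a d e = H a c d e g := by rw [hH.s2 c a g d e, hH.s1 a c g d e, hH.s3 a c d g e, hH.s4 a c d e g]
  have ecgbde : H c g b d e = H b c d e g := by rw [hH.s2 c b g d e, hH.s1 b c g d e, hH.s3 b c d g e, hH.s4 b c d e g]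
  have ecgabf : H c g a b f = H a b c f g := by rw [hH.s2 c a g b f, hH.s1 a c g b f, hH.s3 a c b g f, hH.s2 a b c g f, hH.s4 a b c f g]
  have ecgadf : H c g a d f = H a c d f g := by rw [hH.s2 c a g d f, hH.s1 a c g d f, hH.s3 a c d g f, hH.s4 a c d f g]
  have ecgbdf : H c g b d f = H b c d f g := by rw [hH.s2 c b g d f, hH.s1 b c g d f, hH.s3 b c d g f, hH.s4 b c d f g]
  have ecgaef : H c g a e f = H a c e f g := by rw [hH.s2 c a g e f, hH.s1 a c g e f, hH.s3 a c e g f, hH.s4 a c e f g]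
  have ecgbef : H c g b e f = H b c e f g := by rw [hH.s2 c b g e f, hH.s1 b c g e f, hH.s3 b c e g f, hH.s4 b c e f g]
  have ecgdef : H c g d e f = H c d e f g := by rw [hH.s2 c d g e f, hH.s3 c d e g f, hH.s4 c d e f g]
  show Nat.add (q (H a b d e f) (cd5 (H c b d e f) (H a c d e f) (H a b c e f) (H a b d c f) (H a b d e c)) (cd5 (H g b d e f) (H a g d e f) (H a b g e f) (H a b d g f) (H a b d e g))) (u (cd10 (H c g a b d) (H c g a b e) (H c g a d e) (H c g b d e) (H c g a b f) (H c g a d f) (H c g b d f) (H c g a e f) (H c g b e f) (H c g d e f))) = _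
  rw [ecbdef, eabdcf, eabdec, egbdef, eagdef, eabgef, eabdgf, ecgabd, ecgabe, ecgade, ecgbde, ecgabf, ecgadf, ecgbdf, ecgaef, ecgbef, ecgdef]

theorem T36 (hH : Sy5 H) (q : ℕ → ℕ → ℕ → ℕ) (u : ℕ → ℕ) (a b c d e f g : V) :
    F7 H q u a b c e f d g = Nat.add (q (H a b c e f) (cd5 (H b c d e f) (H a c d e f) (H a b d e f) (H a b c d f) (H a b c d e)) (cd5 (H b c e f g) (H a c e f g) (H a b e f g) (H a b c f g) (H a b c e g))) (u (cd10 (H a b c d g) (H a b d e g) (H a c d e g) (H b c d e g) (H a b d f g) (H a c d f g) (H b c d f g) (H a d e f g) (H b d e f g) (H c d e f g))) := by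
  have edbcef : H d b c e f = H b c d e f := by rw [hH.s1 b d c e f, hH.s2 b c d e f]
  have eadcef : H a d c e f = H a c d e f := by rw [hH.s2 a c d e f]
  have eabced : H a b c e d = H a b c d e := by rw [hH.s4 a b c d e]
  have egbcef : H g b c e f = H b c e f g := by rw [hH.s1 b g c e f, hH.s2 b c g e f, hH.s3 b c e g f, hH.s4 b c e f g]
  have eagcef : H a g c e f = H a c e f g := by rw [hH.s2 a c g e f, hH.s3 a c e g f, hH.s4 a c e f g]
  have eabgef : H a b g e f = H a b e f g := by rw [hH.s3 a b e g f, hH.s4 a b e f g]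
  have eabcgf : H a b c g f = H a b c f g := by rw [hH.s4 a b c f g]
  have edgabc : H d g a b c = H a b c d g := by rw [hH.s2 d a g b c, hH.s1 a d g b c, hH.s3 a d b g c, hH.s2 a b d g c, hH.s4 a b d c g, hH.s3 a b c d g]
  have edgabe : H d g a b e = H a b d e g := by rw [hH.s2 d a g b e, hH.s1 a d g b e, hH.s3 a d b g e, hH.s2 a b d g e, hH.s4 a b d e g]
  have edgace : H d g a c e = H a c d e g := by rw [hH.s2 d a g c e, hH.s1 a d g c e, hH.s3 a d c g e, hH.s2 a c d g e, hH.s4 a c d e g]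
  have edgbce : H d g b c e = H b c d e g := by rw [hH.s2 d b g c e, hH.s1 b d g c e, hH.s3 b d c g e, hH.s2 b c d g e, hH.s4 b c d e g]
  have edgabf : H d g a b f = H a b d f g := by rw [hH.s2 d a g b f, hH.s1 a d g b f, hH.s3 a d b g f, hH.s2 a b d g f, hH.s4 a b d f g]
  have edgacf : H d g a c f = H a c d f g := by rw [hH.s2 d a g c f, hH.s1 a d g c f, hH.s3 a d c g f, hH.s2 a c d g f, hH.s4 a c d f g]
  have edgbcf : H d g b c f = H b c d f g := by rw [hH.s2 d b g c f, hH.s1 b d g c f, hH.s3 b d c g f, hH.s2 b c d g f, hH.s4 b c d f g]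
  have edgaef : H d g a e f = H a d e f g := by rw [hH.s2 d a g e f, hH.s1 a d g e f, hH.s3 a d e g f, hH.s4 a d e f g]
  have edgbef : H d g b e f = H b d e f g := by rw [hH.s2 d b g e f, hH.s1 b d g e f, hH.s3 b d e g f, hH.s4 b d e f g]
  have edgcef : H d g c e f = H c d e f g := by rw [hH.s2 d c g e f, hH.s1 c d g e f, hH.s3 c d e g f, hH.s4 c d e f g]
  show Nat.add (q (H a b c e f) (cd5 (H d b c e f) (H a d c e f) (H a b d e f) (H a b c d f) (H a b c e d)) (cd5 (H g b c e f) (H a g c e f) (H a b g e f) (H a b c g f) (H a b c e g))) (u (cd10 (H d g a b c) (H d g a b e) (H d g a c e) (H d g b c e) (H d g a b f) (H d g a c f) (H d g b c f) (H d g a e f) (H d g b e f) (H d g c e f))) = _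
  rw [edbcef, eadcef, eabced, egbcef, eagcef, eabgef, eabcgf, edgabc, edgabe, edgace, edgbce, edgabf, edgacf, edgbcf, edgaef, edgbef, edgcef]

theorem T46 (hH : Sy5 H) (q : ℕ → ℕ → ℕ → ℕ) (u : ℕ → ℕ) (a b c d e f g : V) :
    F7 H q u a b c d f e g = Nat.add (q (H a b c d f) (cd5 (H b c d e f) (H a c d e f) (H a b d e f) (H a b c e f) (H a b c d e)) (cd5 (H b c d f g) (H a c d f g) (H a b d f g) (H a b c f g) (H a b c d g))) (u (cd10 (H a b c e g) (H a b d e g) (H a c d e g) (H b c d e g) (H a b e f g) (H a c e f g) (H b c e f g) (H a d e f g) (H b d e f g) (H c d e f g))) := by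
  have eebcdf : H e b c d f = H b c d e f := by rw [hH.s1 b e c d f, hH.s2 b c e d f, hH.s3 b c d e f]
  have eaecdf : H a e c d f = H a c d e f := by rw [hH.s2 a c e d f, hH.s3 a c d e f]
  have eabedf : H a b e d f = H a b d e f := by rw [hH.s3 a b d e f]
  have egbcdf : H g b c d f = H b c d f g := by rw [hH.s1 b g c d f, hH.s2 b c g d f, hH.s3 b c d g f, hH.s4 b c d f g]
  have eagcdf : H a g c d f = H a c d f g := by rw [hH.s2 a c g d f, hH.s3 a c d g f, hH.s4 a c d f g]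
  have eabgdf : H a b g d f = H a b d f g := by rw [hH.s3 a b d g f, hH.s4 a b d f g]
  have eabcgf : H a b c g f = H a b c f g := by rw [hH.s4 a b c f g]
  have eegabc : H e g a b c = H a b c e g := by rw [hH.s2 e a g b c, hH.s1 a e g b c, hH.s3 a e b g c, hH.s2 a b e g c, hH.s4 a b e c g, hH.s3 a b c e g]
  have eegabd : H e g a b d = H a b d e g := by rw [hH.s2 e a g b d, hH.s1 a e g b d, hH.s3 a e b g d, hH.s2 a b e g d, hH.s4 a b e d g, hH.s3 a b d e g]
  have eegacd : H e g a c d = H a c d e g := by rw [hH.s2 e a g c d, hH.s1 a e g c d, hH.s3 a e c g d, hH.s2 a c e g d, hH.s4 a c e d g, hH.s3 a c d e g]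
  have eegbcd : H e g b c d = H b c d e g := by rw [hH.s2 e b g c d, hH.s1 b e g c d, hH.s3 b e c g d, hH.s2 b c e g d, hH.s4 b c e d g, hH.s3 b c d e g]
  have eegabf : H e g a b f = H a b e f g := by rw [hH.s2 e a g b f, hH.s1 a e g b f, hH.s3 a e b g f, hH.s2 a b e g f, hH.s4 a b e f g]
  have eegacf : H e g a c f = H a c e f g := by rw [hH.s2 e a g c f, hH.s1 a e g c f, hH.s3 a e c g f, hH.s2 a c e g f, hH.s4 a c e f g]
  have eegbcf : H e g b c f = H b c e f g := by rw [hH.s2 e b g c f, hH.s1 b e g c f, hH.s3 b e c g f, hH.s2 b c e g f, hH.s4 b c e f g]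
  have eegadf : H e g a d f = H a d e f g := by rw [hH.s2 e a g d f, hH.s1 a e g d f, hH.s3 a e d g f, hH.s2 a d e g f, hH.s4 a d e f g]
  have eegbdf : H e g b d f = H b d e f g := by rw [hH.s2 e b g d f, hH.s1 b e g d f, hH.s3 b e d g f, hH.s2 b d e g f, hH.s4 b d e f g]
  have eegcdf : H e g c d f = H c d e f g := by rw [hH.s2 e c g d f, hH.s1 c e g d f, hH.s3 c e d g f, hH.s2 c d e g f, hH.s4 c d e f g]
  show Nat.add (q (H a b c d f) (cd5 (H e b c d f) (H a e c d f) (H a b e d f) (H a b c e f) (H a b c d e)) (cd5 (H g b c d f) (H a g c d f) (H a b g d f) (H a b c g f) (H a b c d g))) (u (cd10 (H e g a b c) (H e g a b d) (H e g a c d) (H e g b c d) (H e g a b f) (H e g a c f) (H e g b c f) (H e g a d f) (H e g b d f) (H e g c d f))) = _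
  rw [eebcdf, eaecdf, eabedf, egbcdf, eagcdf, eabgdf, eabcgf, eegabc, eegabd, eegacd, eegbcd, eegabf, eegacf, eegbcf, eegadf, eegbdf, eegcdf]

theorem T56 (hH : Sy5 H) (q : ℕ → ℕ → ℕ → ℕ) (u : ℕ → ℕ) (a b c d e f g : V) :
    F7 H q u a b c d e f g = Nat.add (q (H a b c d e) (cd5 (H b c d e f) (H a c d e f) (H a b d e f) (H a b c e f) (H a b c d f)) (cd5 (H b c d e g) (H a c d e g) (H a b d e g) (H a b c e g) (H a b c d g))) (u (cd10 (H a b c f g) (H a b d f g) (H a c d f g) (H b c d f g) (H a b e f g) (H a c e f g) (H b c e f g) (H a d e f g) (H b d e f g) (H c d e f g))) := by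
  have efbcde : H f b c d e = H b c d e f := by rw [hH.s1 b f c d e, hH.s2 b c f d e, hH.s3 b c d f e, hH.s4 b c d e f]
  have eafcde : H a f c d e = H a c d e f := by rw [hH.s2 a c f d e, hH.s3 a c d f e, hH.s4 a c d e f]
  have eabfde : H a b f d e = H a b d e f := by rw [hH.s3 a b d f e, hH.s4 a b d e f]
  have eabcfe : H a b c f e = H a b c e f := by rw [hH.s4 a b c e f]
  have egbcde : H g b c d e = H b c d e g := by rw [hH.s1 b g c d e, hH.s2 b c g d e, hH.s3 b c d g e, hH.s4 b c d e g]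
  have eagcde : H a g c d e = H a c d e g := by rw [hH.s2 a c g d e, hH.s3 a c d g e, hH.s4 a c d e g]
  have eabgde : H a b g d e = H a b d e g := by rw [hH.s3 a b d g e, hH.s4 a b d e g]
  have eabcge : H a b c g e = H a b c e g := by rw [hH.s4 a b c e g]
  have efgabc : H f g a b c = H a b c f g := by rw [hH.s2 f a g b c, hH.s1 a f g b c, hH.s3 a f b g c, hH.s2 a b f g c, hH.s4 a b f c g, hH.s3 a b c f g]
  have efgabd : H f g a b d = H a b d f g := by rw [hH.s2 f a g b d, hH.s1 a f g b d, hH.s3 a f b g d, hH.s2 a b f g d, hH.s4 a b f d g, hH.s3 a b d f g]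
  have efgacd : H f g a c d = H a c d f g := by rw [hH.s2 f a g c d, hH.s1 a f g c d, hH.s3 a f c g d, hH.s2 a c f g d, hH.s4 a c f d g, hH.s3 a c d f g]
  have efgbcd : H f g b c d = H b c d f g := by rw [hH.s2 f b g c d, hH.s1 b f g c d, hH.s3 b f c g d, hH.s2 b c f g d, hH.s4 b c f d g, hH.s3 b c d f g]
  have efgabe : H f g a b e = H a b e f g := by rw [hH.s2 f a g b e, hH.s1 a f g b e, hH.s3 a f b g e, hH.s2 a b f g e, hH.s4 a b f e g, hH.s3 a b e f g]
  have efgace : H f g a c e = H a c e f g := by rw [hH.s2 f a g c e, hH.s1 a f g c e, hH.s3 a f c g e, hH.s2 a c f g e, hH.s4 a c f e g, hH.s3 a c e f g]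
  have efgbce : H f g b c e = H b c e f g := by rw [hH.s2 f b g c e, hH.s1 b f g c e, hH.s3 b f c g e, hH.s2 b c f g e, hH.s4 b c f e g, hH.s3 b c e f g]
  have efgade : H f g a d e = H a d e f g := by rw [hH.s2 f a g d e, hH.s1 a f g d e, hH.s3 a f d g e, hH.s2 a d f g e, hH.s4 a d f e g, hH.s3 a d e f g]
  have efgbde : H f g b d e = H b d e f g := by rw [hH.s2 f b g d e, hH.s1 b f g d e, hH.s3 b f d g e, hH.s2 b d f g e, hH.s4 b d f e g, hH.s3 b d e f g]
  have efgcde : H f g c d e = H c d e f g := by rw [hH.s2 f c g d e, hH.s1 c f g d e, hH.s3 c f d g e, hH.s2 c d f g e, hH.s4 c d f e g, hH.s3 c d e f g]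
  show Nat.add (q (H a b c d e) (cd5 (H f b c d e) (H a f c d e) (H a b f d e) (H a b c f e) (H a b c d f)) (cd5 (H g b c d e) (H a g c d e) (H a b g d e) (H a b c g e) (H a b c d g))) (u (cd10 (H f g a b c) (H f g a b d) (H f g a c d) (H f g b c d) (H f g a b e) (H f g a c e) (H f g b c e) (H f g a d e) (H f g b d e) (H f g c d e))) = _
  rw [efbcde, eafcde, eabfde, eabcfe, egbcde, eagcde, eabgde, eabcge, efgabc, efgabd, efgacd, efgbcd, efgabe, efgace, efgbce, efgade, efgbde, efgcde]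

theorem K7_eq (hH : Sy5 H) (q : ℕ → ℕ → ℕ → ℕ) (u : ℕ → ℕ) (a b c d e f g : V) :
    L7 H q u a b c d e f g = leaf7 q u (H c d e f g) (H b d e f g) (H a d e f g) (H b c e f g) (H a c e f g) (H a b e f g) (H b c d f g) (H a c d f g) (H a b d f g) (H a b c f g) (H b c d e g) (H a c d e g) (H a b d e g) (H a b c e g) (H a b c d g) (H b c d e f) (H a c d e f) (H a b d e f) (H a b c e f) (H a b c d f) (H a b c d e) := by
  unfold L7
  rw [T01 hH q u a b c d e f g, T02 hH q u a b c d e f g, T12 hH q u a b c d e f g, T03 hH q u a b c d e f g, T13 hH q u a b c d e f g, T23 hH q u a b c d e f g, T04 hH q u a b c d e f g, T14 hH q u a b c d e f g, T24 hH q u a b c d e f g, T34 hH q u a b c d e f g, T05 hH q u a b c d e f g, T15 hH q u a b c d e f g, T25 hH q u a b c d e f g, T35 hH q u a b c d e f g, T45 hH q u a b c d e f g, T06 hH q u a b c d e f g, T16 hH q u a b c d e f g, T26 hH q u a b c d e f g, T36 hH q u a b c d e f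 g, T46 hH q u a b c d e f g, T56 hH q u a b c d e f g]
  rfl

def Cov (H : V → V → V → V → V → ℕ) : Prop :=
  ∀ a b c d e f : V, 1 ≤ H b c d e f + (H a c d e f + (H a b d e f + (H a b c e f + (H a b c d f + H a b c d e))))

theorem ok7_H (hcov : Cov H) (a b c d e f g : V) : ok7 (H c d e f g) (H b d e f g) (H a d e f g) (H b c e f g) (H a c e f g) (H a b e f g) (H b c d f g) (H a c d f g) (H a b d f g) (H a b c f g) (H b c d e g) (H a c d e g) (H a b d e g) (H a b c e g) (H a b c d g) (H b c d e f) (H a c d e f) (H a b d e f) (H a b c e f) (H a b c d f) (H a b c d e) = true := by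
  have h0 := Nat.ble_eq_true_of_le (hcov b c d e f g)
  have h1 := Nat.ble_eq_true_of_le (hcov a c d e f g)
  have h2 := Nat.ble_eq_true_of_le (hcov a b d e f g)
  have h3 := Nat.ble_eq_true_of_le (hcov a b c e f g)
  have h4 := Nat.ble_eq_true_of_le (hcov a b c d f g)
  have h5 := Nat.ble_eq_true_of_le (hcov a b c d e g)
  have h6 := Nat.ble_eq_true_of_le (hcov a b c d e f)
  unfold ok7
  simp only [Nat.add_eq]
  simp only [h0, h1, h2, h3, h4, h5, h6, Bool.and_self]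

theorem chk7_sound (hH : Sy5 H) (hcov : Cov H) {q : ℕ → ℕ → ℕ → ℕ} {u : ℕ → ℕ} {D C : ℕ} (a b c d e f g : V)
    (h : chk7 q u D C (H c d e f g) (H b d e f g) (H a d e f g) (H b c e f g) (H a c e f g) (H a b e f g) (H b c d f g) (H a c d f g) (H a b d f g) (H a b c f g) (H b c d e g) (H a c d e g) (H a b d e g) (H a b c e g) (H a b c d g) = true) :
    L7 H q u a b c d e f g ≤ D * S7 H a b c d e f g + C := by
  have h2 := (B2_true (B2_true (B2_true (B2_true (B2_true (B2_true h (hH.b b c d e f)) (hH.b a c d e f)) (hH.b a b d e f)) (hH.b a b c e f)) (hH.b a b c d f)) (hH.b a b c d e))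
  rw [ok7_H hcov a b c d e f g] at h2
  have h3 := Nat.le_of_ble_eq_true h2
  rw [← K7_eq hH q u a b c d e f g] at h3
  exact h3

end

def Good7 {V : Type} (H : V → V → V → V → V → ℕ) (q : ℕ → ℕ → ℕ → ℕ) (u : ℕ → ℕ) (D C : ℕ) (g01 g02 g12 g03 g13 g23 g04 g14 g24 g34 g05 g15 g25 g35 g45 : ℕ) : Prop :=
  ∀ a b c d e f g : V, H c d e f g = g01 → H b d e f g = g02 → H a d e f g = g12 → H b c e f g = g03 → H a c e f g = g13 → H a b e f g = g23 → H b c d f g = g04 → H a c d f g = g14 → H a b d f g = g24 → H a b c f g = g34 → H b c d e g = g05 → H a c d e g = g15 → H a b d e g = g25 → H a b c e g = g35 → H a b c d g = g45 →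
    L7 H q u a b c d e f g ≤ D * S7 H a b c d e f g + C

section
variable {V : Type} {H : V → V → V → V → V → ℕ} {q : ℕ → ℕ → ℕ → ℕ} {u : ℕ → ℕ} {D C : ℕ}

theorem good7_sw0 (hH : Sy5 H) (hs : symQ q = true) (hu : symU u = true) (g01 g02 g12 g03 g13 g23 g04 g14 g24 g34 g05 g15 g25 g35 g45 : ℕ)
    (h : Good7 H q u D C g01 g12 g02 g13 g03 g23 g14 g04 g24 g34 g15 g05 g25 g35 g45) : Good7 H q u D C g01 g02 g12 g03 g13 g23 g04 g14 g24 g34 g05 g15 g25 g35 g45 := by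
  intro a b c d e f g h01 h02 h12 h03 h13 h23 h04 h14 h24 h34 h05 h15 h25 h35 h45
  have h' := h b a c d e f g h01 h12 h02 h13 h03 ((hH.s1 _ _ _ _ _).trans h23) h14 h04 ((hH.s1 _ _ _ _ _).trans h24) ((hH.s1 _ _ _ _ _).trans h34) h15 h05 ((hH.s1 _ _ _ _ _).trans h25) ((hH.s1 _ _ _ _ _).trans h35) ((hH.s1 _ _ _ _ _).trans h45)
  rwa [L7_sw0 hH hs hu, S7_sw0 hH] at h'

theorem good7_sw1 (hH : Sy5 H) (hs : symQ q = true) (hu : symU u = true) (g01 g02 g12 g03 g13 g23 g04 g14 g24 g34 g05 g15 g25 g35 g45 : ℕ)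
    (h : Good7 H q u D C g02 g01 g12 g03 g23 g13 g04 g24 g14 g34 g05 g25 g15 g35 g45) : Good7 H q u D C g01 g02 g12 g03 g13 g23 g04 g14 g24 g34 g05 g15 g25 g35 g45 := by
  intro a b c d e f g h01 h02 h12 h03 h13 h23 h04 h14 h24 h34 h05 h15 h25 h35 h45
  have h' := h a c b d e f g h02 h01 h12 ((hH.s1 _ _ _ _ _).trans h03) h23 h13 ((hH.s1 _ _ _ _ _).trans h04) h24 h14 ((hH.s2 _ _ _ _ _).trans h34) ((hH.s1 _ _ _ _ _).trans h05) h25 h15 ((hH.s2 _ _ _ _ _).trans h35) ((hH.s2 _ _ _ _ _).trans h45)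
  rwa [L7_sw1 hH hs hu, S7_sw1 hH] at h'

theorem good7_sw2 (hH : Sy5 H) (hs : symQ q = true) (hu : symU u = true) (g01 g02 g12 g03 g13 g23 g04 g14 g24 g34 g05 g15 g25 g35 g45 : ℕ)
    (h : Good7 H q u D C g01 g03 g13 g02 g12 g23 g04 g14 g34 g24 g05 g15 g35 g25 g45) : Good7 H q u D C g01 g02 g12 g03 g13 g23 g04 g14 g24 g34 g05 g15 g25 g35 g45 := by
  intro a b c d e f g h01 h02 h12 h03 h13 h23 h04 h14 h24 h34 h05 h15 h25 h35 h45
  have h' := h a b d c e f g ((hH.s1 _ _ _ _ _).trans h01) h03 h13 h02 h12 h23 ((hH.s2 _ _ _ _ _).trans h04) ((hH.s2 _ _ _ _ _).trans h14) h34 h24 ((hH.s2 _ _ _ _ _).trans h05) ((hH.s2 _ _ _ _ _).trans h15) h35 h25 ((hH.s3 _ _ _ _ _).trans h45)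
  rwa [L7_sw2 hH hs hu, S7_sw2 hH] at h'

theorem good7_sw3 (hH : Sy5 H) (hs : symQ q = true) (hu : symU u = true) (g01 g02 g12 g03 g13 g23 g04 g14 g24 g34 g05 g15 g25 g35 g45 : ℕ)
    (h : Good7 H q u D C g01 g02 g12 g04 g14 g24 g03 g13 g23 g34 g05 g15 g25 g45 g35) : Good7 H q u D C g01 g02 g12 g03 g13 g23 g04 g14 g24 g34 g05 g15 g25 g35 g45 := by
  intro a b c d e f g h01 h02 h12 h03 h13 h23 h04 h14 h24 h34 h05 h15 h25 h35 h45
  have h' := h a b c e d f g ((hH.s2 _ _ _ _ _).trans h01) ((hH.s2 _ _ _ _ _).trans h02) ((hH.s2 _ _ _ _ _).trans h12) h04 h14 h24 h03 h13 h23 h34 ((hH.s3 _ _ _ _ _).trans h05) ((hH.s3 _ _ _ _ _).trans h15) ((hH.s3 _ _ _ _ _).trans h25) h45 h35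
  rwa [L7_sw3 hH hs hu, S7_sw3 hH] at h'

theorem good7_sw4 (hH : Sy5 H) (hs : symQ q = true) (hu : symU u = true) (g01 g02 g12 g03 g13 g23 g04 g14 g24 g34 g05 g15 g25 g35 g45 : ℕ)
    (h : Good7 H q u D C g01 g02 g12 g03 g13 g23 g05 g15 g25 g35 g04 g14 g24 g34 g45) : Good7 H q u D C g01 g02 g12 g03 g13 g23 g04 g14 g24 g34 g05 g15 g25 g35 g45 := by
  intro a b c d e f g h01 h02 h12 h03 h13 h23 h04 h14 h24 h34 h05 h15 h25 h35 h45
  have h' := h a b c d f e g ((hH.s3 _ _ _ _ _).trans h01) ((hH.s3 _ _ _ _ _).trans h02) ((hH.s3 _ _ _ _ _).trans h12) ((hH.s3 _ _ _ _ _).trans h03) ((hH.s3 _ _ _ _ _).trans h13) ((hH.s3 _ _ _ _ _).trans h23) h05 h15 h25 h35 h04 h14 h24 h34 h45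
  rwa [L7_sw4 hH hs hu, S7_sw4 hH] at h'

end

end Pool.Agent.J6H68.K65
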