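import Pool.Agent.J6H68.K65.P0
import Pool.Agent.J6H68.K65.P1
import Pool.Agent.J6H68.K65.P2
import Pool.Agent.J6H68.K65.P3
import Pool.Agent.J6H68.K65.P4

/-! The tables are positive semidefinite and symmetric. -/

set_option autoImplicit false
set_option maxRecDepth 100000

namespace Pool.Agent.J6H68.K65

open Pool.Agent.H122R2.N6 (nsum nall nsum_eq nall_true sym4 sym2 Bt B2 B2_true)
open Pool.Agent.W843.N7 (st st_eq)
open Finset

theorem cs4 : sym4 q4 = true := by decide +kernel
theorem cs2 : sym2 q2 = true := by decide +kernel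
theorem csu : symU uu = true := by decide +kernel
theorem csk : symU ku = true := by decide +kernel
theorem cpb : chk2 = true := by decide +kernel
theorem cq0 : chkQ 0 = true := by decide +kernel
theorem cq1 : chkQ 1 = true := by decide +kernel

theorem uub : (nall 1024 fun c => Nat.ble (uu c) KU) = true := by decide +kernel

theorem hu (c : ℕ) (h : c < 1024) : uu c ≤ KU := Nat.le_of_ble_eq_true (nall_true uub c h)

theorem rng : (nall 16 fun c => and (Nat.blt (rho c) 5) (nall 64 fun i => Nat.blt (pc c i) 64)) = true := by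
  decide +kernel

theorem rho_lt {c : ℕ} (h : c < 16) : rho c < 5 := by
  have := nall_true rng c h
  rw [Bool.and_eq_true] at this
  exact Nat.le_of_ble_eq_true this.1

theorem pc_lt {c i : ℕ} (h : c < 16) (hi : i < 64) : pc c i < 64 := by
  have := nall_true rng c h
  rw [Bool.and_eq_true] at this
  exact Nat.le_of_ble_eq_true (nall_true this.2 i hi)

theorem g4_all {r i j : ℕ} (hr : r < 5) (hi : i < 64) (hj : j < 64) : g4w r i j (rw4 r i) (rw4 r j) = true := by
  have h : chk4 r = true := by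
    interval_cases r
    exacts [cp0, cp1, cp2, cp3, cp4]
  have h2 := nall_true (nall_true h i hi) j hj
  unfold g4 at h2
  rw [st_eq, st_eq] at h2
  exact h2

theorem expand (s : Finset ℕ) (u v : ℕ → ℕ) (B : ℤ) :
    ∑ k ∈ s, ((1 : ℕ) : ℤ) * ((u k : ℤ) - B) * ((v k : ℤ) - B) =
      ∑ k ∈ s, ((u k : ℤ) * (v k : ℤ)) + B ^ 2 * (s.card : ℤ)
        - B * (∑ k ∈ s, (u k : ℤ) + ∑ k ∈ s, (v k : ℤ)) := by
  have e : ∑ k ∈ s, B ^ 2 = B ^ 2 * (s.card : ℤ) := by rw [sum_const, nsmul_eq_mul]; ring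
  rw [← e, mul_add, mul_sum, mul_sum, ← sum_add_distrib, ← sum_add_distrib, ← sum_sub_distrib]
  exact sum_congr rfl fun k _ => by push_cast; ring

theorem hq4 (c i j : ℕ) (hc : c < 16) (hi : i < 64) (hj : j < 64) : (q4 c i j : ℤ) =
    ∑ k ∈ range 64, ((1 : ℕ) : ℤ) * ((l4 (rho c) (pc c i) k : ℤ) - 32768) *
      ((l4 (rho c) (pc c j) k : ℤ) - 32768) + 1073741824 := by
  have h := Nat.eq_of_beq_eq_true (g4_all (rho_lt hc) (pc_lt hc hi) (pc_lt hc hj))
  unfold llw slw at h
  rw [nsum_eq, nsum_eq, nsum_eq] at h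
  have h2 := congrArg (fun n : ℕ => (n : ℤ)) h
  simp only [Nat.add_eq, Nat.mul_eq] at h2
  push_cast at h2
  rw [expand (range 64) (fun k => l4 (rho c) (pc c i) k) (fun k => l4 (rho c) (pc c j) k) 32768, card_range]
  have h3 : (q4 c i j : ℤ) = (tq (rho c) (pc c i) (pc c j) : ℤ) := rfl
  rw [h3]
  unfold l4
  push_cast
  linarith

theorem hq2 (i j : ℕ) (hi : i < 16) (hj : j < 16) : (q2 i j : ℤ) =
    ∑ k ∈ range 16, ((1 : ℕ) : ℤ) * ((l2 i k : ℤ) - 32768) * ((l2 j k : ℤ) - 32768) + 1073741824 := by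
  have h := Nat.eq_of_beq_eq_true (nall_true (nall_true cpb i hi) j hj)
  unfold ll2 sl2 at h
  rw [nsum_eq, nsum_eq, nsum_eq] at h
  have h2 := congrArg (fun n : ℕ => (n : ℤ)) h
  simp only [Nat.add_eq, Nat.mul_eq] at h2
  push_cast at h2
  rw [expand (range 16) (fun k => l2 i k) (fun k => l2 j k) 32768, card_range]
  push_cast
  linarith

theorem hq5 (s i j : ℕ) (hs : s < 2) (hi : i < 32) (hj : j < 32) : (q5 s i j : ℤ) =
    ∑ k ∈ range 32, ((1 : ℕ) : ℤ) * ((lq s i k : ℤ) - 32768) * ((lq s j k : ℤ) - 32768) + 1073741824 := by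
  have h0 : chkQ s = true := by
    interval_cases s
    exacts [cq0, cq1]
  have h := Nat.eq_of_beq_eq_true (nall_true (nall_true h0 i hi) j hj)
  unfold llq slq at h
  rw [nsum_eq, nsum_eq, nsum_eq] at h
  have h2 := congrArg (fun n : ℕ => (n : ℤ)) h
  simp only [Nat.add_eq, Nat.mul_eq] at h2
  push_cast at h2
  rw [expand (range 32) (fun k => lq s i k) (fun k => lq s j k) 32768, card_range]
  push_cast
  linarith

end Pool.Agent.J6H68.K65
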