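import Pool.Agent.J6H68.K65.C00
import Pool.Agent.J6H68.K65.C01
import Pool.Agent.J6H68.K65.C10
import Pool.Agent.J6H68.K65.C11
import Pool.Agent.J6H68.K65.Psd

/-! The inequality for 3-graphs. -/

set_option autoImplicit false
set_option maxRecDepth 100000
set_option maxHeartbeats 4000000
open Finset

namespace Pool.Agent.J6H68.K65

open Pool.Agent.H122R2.N6 hiding TB tg walk walk_all chk chk_sound rep_good walk_good leaf_all good_sw0 good_sw1 good_sw2 good_sw3 Good
open Pool.Agent.W846.K54 (tg)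

theorem hc (b012 b013 b023 b123 b014 b024 b124 b034 b134 b234 : ℕ) (hb012 : Bt b012) (hb013 : Bt b013) (hb023 : Bt b023) (hb123 : Bt b123) (hb014 : Bt b014) (hb024 : Bt b024) (hb124 : Bt b124) (hb034 : Bt b034) (hb134 : Bt b134) (hb234 : Bt b234) (ht : tg b012 b013 b023 b123 b014 b024 b124 b034 b134 b234 = 4) :
    chk q4 q2 ku CST b012 b013 b023 b123 b014 b024 b124 b034 b134 b234 = true := by
  have key : ∀ x y : ℕ, (B2 fun b023 => B2 fun b123 => B2 fun b014 => B2 fun b024 => B2 fun b124 => B2 fun b034 => B2 fun b134 => B2 fun b234 => or (not (Nat.beq (tg x y b023 b123 b014 b024 b124 b034 b134 b234) 4)) (chk q4 q2 ku CST x y b023 b123 b014 b024 b124 b034 b134 b234)) = true →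
      tg x y b023 b123 b014 b024 b124 b034 b134 b234 = 4 → chk q4 q2 ku CST x y b023 b123 b014 b024 b124 b034 b134 b234 = true := by
    intro x y h ht
    have h2 := (B2_true (B2_true (B2_true (B2_true (B2_true (B2_true (B2_true (B2_true h hb023) hb123) hb014) hb024) hb124) hb034) hb134) hb234)
    refine or_false_left h2 ?_
    rw [ht]
    rfl
  rcases hb012 with rfl | rfl <;> rcases hb013 with rfl | rfl
  · exact key 0 0 part00 ht
  · exact key 0 1 part01 ht
  · exact key 1 0 part10 ht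
  · exact key 1 1 part11 ht

/-- the inequality for 3-graphs -/
theorem three {n : ℕ} (hn : 0 < n) (E : Fin n → Fin n → Fin n → ℕ) (hE : Sy E) :
    6442380511 * (n : ℤ) ^ 5 ≤ 6 * SU E uu := by
  have hb := bound3 E hE 64 16 CST KU q4 (fun _ _ => 1) (fun c i k => l4 (rho c) (pc c i) k)
    q2 (fun _ => 1) l2 uu 32768 1073741824 1073741824 hq4 hq2 hu
    (leaf_all hE cs4 cs2 csk hc)
  have hC : (CST : ℤ) = 67754596235 := rfl
  have hK : (KU : ℤ) = 1628744551 := rfl
  rw [hC, hK, Fintype.card_fin] at hb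
  have hn' : (0 : ℤ) < (n : ℤ) := by exact_mod_cast hn
  have h2 : (n : ℤ) * (6442380511 * (n : ℤ) ^ 5) ≤ (n : ℤ) * (6 * SU E uu) := by
    have e : (n : ℤ) * (6442380511 * (n : ℤ) ^ 5) = (15 * 1073741824 + 45 * 1073741824 + 6 * 1628744551 - 67754596235) * (n : ℤ) ^ 6 := by
      ring
    rw [e]
    linarith
  exact le_of_mul_le_mul_left h2 hn'

end Pool.Agent.J6H68.K65
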